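import Pool.Agent.H86.CQ.CDefs

/-!
# Data of the proofs

`exists_CD`: the smooth extensions and the flow of `X`. `FL`: the flow line through a point with
`F = 1`. `CD.symm`: the derivative of the gradient is symmetric.
-/

set_option autoImplicit false

open scoped ContDiff Topology RealInnerProductSpace
open Set Filter

namespace Pool.Agent.H86.CQ

open Pool.Agent.H57.NL Pool.Agent.H2.TG Pool.Agent.H2.TI Pool.Agent.H73.CO

variable {m n : ℕ} {N : Set (E m)} {Pr : E m → (E m →L[ℝ] E m)} {F : E m → ℂ}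
  {g V X : E m → E m} {R : ℝ → E m → E m}

/-- a smooth function which is `1 / x` for `x ≥ ε` -/
private theorem cdata_inv {ε : ℝ} (hε : 0 < ε) : ∃ φ : ℝ → ℝ, ContDiff ℝ ∞ φ ∧
    ∀ x, ε ≤ x → φ x = x⁻¹ := by
  refine ⟨fun x => Real.smoothTransition (2 * x / ε - 1) * x⁻¹, ?_, fun x hx => ?_⟩
  · rw [contDiff_iff_contDiffAt]
    intro x
    by_cases hx : x < ε / 2
    · have h1 : (fun x => Real.smoothTransition (2 * x / ε - 1) * x⁻¹) =ᶠ[𝓝 x] fun _ => 0 := by
        filter_upwards [Iio_mem_nhds hx] with y hy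
        have h2 : 2 * y / ε - 1 ≤ 0 := by
          have h3 : y < ε / 2 := hy
          have h4 : 2 * y / ε ≤ 1 := by
            rw [div_le_one hε]
            linarith
          linarith
        rw [Real.smoothTransition.zero_of_nonpos h2, zero_mul]
      exact contDiffAt_const.congr_of_eventuallyEq h1
    · have hx0 : x ≠ 0 := by
        have := not_lt.1 hx
        have : 0 < ε / 2 := by positivity
        intro h0
        linarith
      have h1 : ContDiff ℝ ∞ fun x : ℝ => Real.smoothTransition (2 * x / ε - 1) := by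
        refine Real.smoothTransition.contDiff.comp ?_
        fun_prop
      exact h1.contDiffAt.mul (contDiffAt_inv ℝ hx0)
  · have h2 : 1 ≤ 2 * x / ε - 1 := by
      have h4 : 2 ≤ 2 * x / ε := by
        rw [le_div_iff₀ hε]
        linarith
      linarith
    show Real.smoothTransition (2 * x / ε - 1) * x⁻¹ = x⁻¹
    rw [Real.smoothTransition.one_of_one_le h2, one_mul]

theorem exists_CD (hN : ClosedMfd n N ⊥) (h : CircleMap N F g) :
    ∃ (Pr : E m → (E m →L[ℝ] E m)) (V X : E m → E m) (R : ℝ → E m → E m),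
      CD n N Pr F V X R ∧ ∀ q ∈ N, V q = g q := by
  obtain ⟨Pr, V, hPr, hV, hVg⟩ := exists_ext hN h
  have hc := closedMfd_compact hN
  obtain ⟨q₀, hq₀, hmin⟩ := hc.exists_isMinOn hN.conn.nonempty
    (f := fun q => ‖V q‖ ^ 2) ((hV.norm_sq ℝ).continuous.continuousOn)
  have hpos : 0 < ‖V q₀‖ ^ 2 := by
    have h1 : V q₀ ≠ 0 := by
      rw [hVg q₀ hq₀]
      exact h.ne q₀ hq₀
    have := norm_pos_iff.2 h1
    positivity
  obtain ⟨φ, hφ, hφ1⟩ := cdata_inv hpos
  have hX0 : ContDiff ℝ ∞ fun q => φ (‖V q‖ ^ 2) • V q := (hφ.comp (hV.norm_sq ℝ)).smul hV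
  have hφN : ∀ q ∈ N, φ (‖V q‖ ^ 2) = (‖V q‖ ^ 2)⁻¹ := fun q hq => hφ1 _ (hmin hq)
  have hposN : ∀ q ∈ N, 0 < ‖V q‖ ^ 2 := fun q hq => lt_of_lt_of_le hpos (hmin hq)
  have hT : ∀ q ∈ N, V q ∈ Tan N q := fun q hq => by
    rw [hVg q hq]
    exact h.tan q hq
  obtain ⟨X, R, hB, hX⟩ := exists_base hN.sub hc hN.conn hX0 fun q hq => Tan.smul (hT q hq) _
  have hcirc : CircleMap N F V :=
    ⟨h.smooth, h.unit, hT, fun q hq => by rw [hVg q hq]; exact h.ne q hq, fun q hq => by
      rw [hVg q hq]; exact h.grad q hq⟩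
  refine ⟨Pr, V, X, R, ⟨hN, hPr, hcirc, hV, hB, fun q hq => ?_, fun q hq => ?_⟩, hVg⟩
  · rw [hX q hq, hφN q hq, real_inner_smul_right, real_inner_self_eq_norm_sq,
      inv_mul_cancel₀ (hposN q hq).ne']
  · rw [hX q hq, hφN q hq, smul_smul, mul_inv_cancel₀ (hposN q hq).ne', one_smul]

theorem CD.tanX (h : CD n N Pr F V X R) {q : E m} (hq : q ∈ N) : X q ∈ Tan N q :=
  h.base.tan q hq

/-- `F` along the flow of `X` -/
theorem CD.lev (h : CD n N Pr F V X R) {q : E m} (hq : q ∈ N) (τ : ℝ) :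
    F (R τ q) = Complex.exp ((τ : ℂ) * Complex.I) * F q := by
  have hd : ∀ s : ℝ, HasDerivAt (fun s : ℝ => Complex.exp (-((s : ℂ) * Complex.I)) * F (R s q)) 0 s := by
    intro s
    have hs : R s q ∈ N := h.base.maps q hq s
    have h1 : HasDerivAt (fun s => F (R s q)) (Complex.I * F (R s q)) s := by
      have h2 := (h.circ.smooth.differentiable (by simp) (R s q)).hasFDerivAt.comp_hasDerivAt s
        (h.base.flow.deriv q s)
      rw [h.circ.dF hs (h.base.tan _ hs), h.one _ hs, one_smul] at h2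
      exact h2
    have h3 : HasDerivAt (fun s : ℝ => -((s : ℂ) * Complex.I)) (-(1 * Complex.I)) s :=
      ((hasDerivAt_id s).ofReal_comp.mul_const Complex.I).neg
    have h4 := (h3.cexp).mul h1
    refine h4.congr_deriv ?_
    ring
  have h5 := is_const_of_deriv_eq_zero (fun t => (hd t).differentiableAt)
    (fun t => (hd t).deriv) τ 0
  simp only [Complex.ofReal_zero, zero_mul, neg_zero, Complex.exp_zero, one_mul,
    h.base.flow.zero] at h5
  rw [← h5, ← mul_assoc, ← Complex.exp_add, add_neg_cancel, Complex.exp_zero, one_mul]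

/-- the values of `F` are of the form `exp (i θ)` -/
theorem CD.arg (h : CD n N Pr F V X R) {q : E m} (hq : q ∈ N) :
    ∃ θ : ℝ, F q = Complex.exp ((θ : ℂ) * Complex.I) := by
  refine ⟨Complex.arg (F q), ?_⟩
  have h1 := Complex.norm_mul_exp_arg_mul_I (F q)
  rw [h.circ.unit q hq, Complex.ofReal_one, one_mul] at h1
  exact h1.symm

/-- the flow line through `q` -/
theorem exists_FL (h : CD n N Pr F V X R) {q : E m} (hq : q ∈ N) {θ : ℝ}
    (hθ : F q = Complex.exp ((θ : ℂ) * Complex.I)) : ∃ c, FL N F X c ∧ c θ = q := by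
  refine ⟨fun t => R (t - θ) q, ⟨fun t => h.base.maps q hq _, fun t => ?_, fun t => ?_⟩, ?_⟩
  · have h1 := (h.base.flow.deriv q (t - θ))
    exact h1.comp_sub_const t θ
  · rw [h.lev hq, hθ, ← Complex.exp_add]
    congr 1
    push_cast
    ring
  · show R (θ - θ) q = q
    rw [sub_self, h.base.flow.zero]

theorem FL.smooth (h : CD n N Pr F V X R) {c : ℝ → E m} (hc : FL N F X c) : ContDiff ℝ ∞ c := by
  have h1 : c = fun t => R t (c 0) := funext fun t => h.base.flow.unique h.base.smooth hc.der t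
  rw [h1]
  exact h.base.flow.smooth.comp (contDiff_id.prodMk contDiff_const)

/-- the gradients of real functions have a symmetric derivative -/
private theorem cdata_aux {u : E m → ℝ} {G : E m → E m} (hu : ContDiff ℝ ∞ u)
    (hG : ContDiff ℝ ∞ G) (hd : ∀ q ∈ N, ∀ v ∈ Tan N q, fderiv ℝ u q v = ⟪G q, v⟫)
    {e : OpenPartialHomeomorph (E m) (E m)}
    {A : Submodule ℝ (E m)} (hs : Slice n N e A) {q v w : E m} (hqe : q ∈ e.source) (hq : q ∈ N)
    (hv : v ∈ Tan N q) (hw : w ∈ Tan N q) :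
    fderiv ℝ (fderiv ℝ (u ∘ e.symm)) (e q) (fderiv ℝ e q v) (fderiv ℝ e q w) =
      ⟪fderiv ℝ G q v, w⟫ +
        ⟪G q, fderiv ℝ (fderiv ℝ e.symm) (e q) (fderiv ℝ e q v) (fderiv ℝ e q w)⟫ := by
  have haA : fderiv ℝ e q v ∈ A := (hs.mem_tan hqe hq v).1 hv
  have hbA : fderiv ℝ e q w ∈ A := (hs.mem_tan hqe hq w).1 hw
  have hla := hs.left hqe v
  have hlb := hs.left hqe w
  set a := fderiv ℝ e q v with ha
  set b := fderiv ℝ e q w with hb
  have hy : e q ∈ e.target := e.map_source hqe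
  have hyA : e q ∈ A := (hs.iff q hqe).1 hq
  have hcs : ContDiffAt ℝ ∞ e.symm (e q) := hs.cd' hy
  have hcu : ContDiffAt ℝ ∞ (u ∘ e.symm) (e q) := hu.contDiffAt.comp (e q) hcs
  have hline : HasDerivAt (fun s : ℝ => e q + s • a) a 0 := by
    have := ((hasDerivAt_id (0 : ℝ)).smul_const a).const_add (e q)
    simpa using this
  have h0 : (fun s : ℝ => e q + s • a) 0 = e q := by simp
  have d1 : HasFDerivAt (fderiv ℝ (u ∘ e.symm)) (fderiv ℝ (fderiv ℝ (u ∘ e.symm)) (e q))
      ((fun s : ℝ => e q + s • a) 0) := by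
    rw [h0]
    exact ((hcu.fderiv_right (m := 1) (by norm_cast)).differentiableAt (by norm_num)).hasFDerivAt
  have d2 : HasFDerivAt (fderiv ℝ e.symm) (fderiv ℝ (fderiv ℝ e.symm) (e q))
      ((fun s : ℝ => e q + s • a) 0) := by
    rw [h0]
    exact ((hcs.fderiv_right (m := 1) (by norm_cast)).differentiableAt (by norm_num)).hasFDerivAt
  have d3 : HasFDerivAt e.symm (fderiv ℝ e.symm (e q)) ((fun s : ℝ => e q + s • a) 0) := by
    rw [h0]
    exact hs.hd' hy
  have L := (d1.comp_hasDerivAt (0 : ℝ) hline).clm_apply (hasDerivAt_const (0 : ℝ) b)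
  have R1 := (d2.comp_hasDerivAt (0 : ℝ) hline).clm_apply (hasDerivAt_const (0 : ℝ) b)
  have R2 := d3.comp_hasDerivAt (0 : ℝ) hline
  have e0 : (e.symm ∘ fun s : ℝ => e q + s • a) 0 = q := by
    simp [e.left_inv hqe]
  have hg : HasFDerivAt G (fderiv ℝ G q) ((e.symm ∘ fun s : ℝ => e q + s • a) 0) := by
    rw [e0]
    exact ((hG.differentiable (by simp)) q).hasFDerivAt
  have R3 := hg.comp_hasDerivAt (0 : ℝ) R2
  have R4 := R3.inner ℝ R1
  have hev : (fun s : ℝ => (fderiv ℝ (u ∘ e.symm) ∘ fun s : ℝ => e q + s • a) s b) =ᶠ[𝓝 0]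
      fun s : ℝ => ⟪(G ∘ (e.symm ∘ fun s : ℝ => e q + s • a)) s,
        (fderiv ℝ e.symm ∘ fun s : ℝ => e q + s • a) s b⟫ := by
    have ht : Tendsto (fun s : ℝ => e q + s • a) (𝓝 0) (𝓝 (e q)) := by
      have := hline.continuousAt.tendsto
      rwa [zero_smul, add_zero] at this
    filter_upwards [ht.eventually (e.open_target.mem_nhds hy)] with s hsT
    simp only [Function.comp_apply]
    obtain ⟨y, hyy⟩ : ∃ y, y = e q + s • a := ⟨_, rfl⟩
    rw [← hyy] at hsT ⊢
    have hyA' : y ∈ A := by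
      rw [hyy]
      exact A.add_mem hyA (A.smul_mem _ haA)
    have hx : e.symm y ∈ e.source := e.map_target hsT
    have hxy : e (e.symm y) = y := e.right_inv hsT
    have hxN : e.symm y ∈ N := by
      rw [hs.iff _ hx, hxy]
      exact hyA'
    have htan : fderiv ℝ e.symm y b ∈ Tan N (e.symm y) := by
      rw [hs.mem_tan hx hxN]
      have h1 := hs.right hx b
      rw [hxy] at h1
      rw [h1]
      exact hbA
    have h2 : fderiv ℝ (u ∘ e.symm) y = (fderiv ℝ u (e.symm y)).comp (fderiv ℝ e.symm y) := by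
      have h3 : HasFDerivAt u (fderiv ℝ u (e.symm y)) (e.symm y) :=
        ((hu.differentiable (by simp)) (e.symm y)).hasFDerivAt
      exact (h3.comp y (hs.hd' hsT)).fderiv
    rw [h2]
    exact hd _ hxN _ htan
  have key := L.unique (R4.congr_of_eventuallyEq hev)
  simp only [Function.comp_apply, zero_smul, add_zero, map_zero, e.left_inv hqe, hla, hlb] at key
  rw [key]
  ring

theorem grad_symm (hN : IsSubmfd n N) {u : E m → ℝ} {G : E m → E m} (hu : ContDiff ℝ ∞ u)
    (hG : ContDiff ℝ ∞ G) (hd : ∀ q ∈ N, ∀ v ∈ Tan N q, fderiv ℝ u q v = ⟪G q, v⟫)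
    {q v w : E m} (hq : q ∈ N) (hv : v ∈ Tan N q) (hw : w ∈ Tan N q) :
    ⟪fderiv ℝ G q v, w⟫ = ⟪fderiv ℝ G q w, v⟫ := by
  obtain ⟨e, A, hqe, hs⟩ := hN.slice hq
  have hy : e q ∈ e.target := e.map_source hqe
  have hcs : ContDiffAt ℝ ∞ e.symm (e q) := hs.cd' hy
  have hcu : ContDiffAt ℝ ∞ (u ∘ e.symm) (e q) := hu.contDiffAt.comp (e q) hcs
  have hsm : minSmoothness ℝ 2 ≤ (∞ : WithTop ℕ∞) := by
    rw [minSmoothness_of_isRCLikeNormedField]
    exact WithTop.coe_le_coe.2 le_top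
  have s1 := hcs.isSymmSndFDerivAt hsm (fderiv ℝ e q v) (fderiv ℝ e q w)
  have s2 := hcu.isSymmSndFDerivAt hsm (fderiv ℝ e q v) (fderiv ℝ e q w)
  have h1 := cdata_aux hu hG hd hs hqe hq hv hw
  have h2 := cdata_aux hu hG hd hs hqe hq hw hv
  rw [s2, s1, h2] at h1
  linarith

theorem CD.symm (h : CD n N Pr F V X R) {q v w : E m} (hq : q ∈ N) (hv : v ∈ Tan N q)
    (hw : w ∈ Tan N q) : ⟪fderiv ℝ V q v, w⟫ = ⟪fderiv ℝ V q w, v⟫ := by
  -- `u = Im (conj (F q) F)`, with gradient `Re (conj (F q) F) V`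
  obtain ⟨κ, hκ⟩ : ∃ κ : ℂ, κ = (starRingEnd ℂ) (F q) := ⟨_, rfl⟩
  have hκF : κ * F q = 1 := by
    rw [hκ, ← Complex.normSq_eq_conj_mul_self, Complex.normSq_eq_norm_sq, h.circ.unit q hq]
    norm_num
  have hFs : ContDiff ℝ ∞ fun y => κ * F y := contDiff_const.mul h.circ.smooth
  have hu : ContDiff ℝ ∞ fun y => (κ * F y).im := Complex.imCLM.contDiff.comp hFs
  have hr : ContDiff ℝ ∞ fun y => (κ * F y).re := Complex.reCLM.contDiff.comp hFs
  have hG : ContDiff ℝ ∞ fun y => (κ * F y).re • V y := hr.smul h.smooth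
  have hFd : ∀ y, HasFDerivAt (fun y => κ * F y) (κ • fderiv ℝ F y) y := fun y =>
    ((h.circ.smooth.differentiable (by simp) y).hasFDerivAt).const_mul κ
  have hud : ∀ y, HasFDerivAt (fun y => (κ * F y).im)
      (Complex.imCLM.comp (κ • fderiv ℝ F y)) y := fun y =>
    Complex.imCLM.hasFDerivAt.comp y (hFd y)
  have hrd : ∀ y, HasFDerivAt (fun y => (κ * F y).re)
      (Complex.reCLM.comp (κ • fderiv ℝ F y)) y := fun y =>
    Complex.reCLM.hasFDerivAt.comp y (hFd y)
  have hd : ∀ y ∈ N, ∀ v ∈ Tan N y, fderiv ℝ (fun y => (κ * F y).im) y v =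
      ⟪(κ * F y).re • V y, v⟫ := by
    intro y hy v hv
    rw [(hud y).fderiv, real_inner_smul_left]
    show (κ * fderiv ℝ F y v).im = _
    rw [h.circ.dF hy hv, mul_smul_comm, mul_left_comm]
    simp [mul_comm]
  have hVd : HasFDerivAt V (fderiv ℝ V q) q := (h.smooth.differentiable (by simp) q).hasFDerivAt
  have hGd : ∀ v ∈ Tan N q, fderiv ℝ (fun y => (κ * F y).re • V y) q v = fderiv ℝ V q v := by
    intro v hv
    have h1 : fderiv ℝ (fun y => (κ * F y).re • V y) q = (κ * F q).re • fderiv ℝ V q +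
        (Complex.reCLM.comp (κ • fderiv ℝ F q)).smulRight (V q) := ((hrd q).smul hVd).fderiv
    rw [h1]
    have h2 : (κ * fderiv ℝ F q v).re = 0 := by
      rw [h.circ.dF hq hv, mul_smul_comm, mul_left_comm, hκF]
      simp
    show (κ * F q).re • fderiv ℝ V q v + (κ * fderiv ℝ F q v).re • V q = _
    rw [hκF, h2, zero_smul, add_zero, Complex.one_re, one_smul]
  have h3 := grad_symm h.mfd.sub hu hG hd hq hv hw
  rw [hGd v hv, hGd w hw] at h3
  exact h3

end Pool.Agent.H86.CQ
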