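import Pool.Agent.H86.CQ.Circ
import Pool.Agent.H73.CO.CiA

/-!
# Cohomogeneity one, the orbit space being a circle, equivariant form: definitions

`F : N → S¹`, `F = exp (i θ)`, `g = grad θ`, `X = g / |g|²`. The set `{(q, t g(q))}` is
coisotropic and its reduction is `T*S¹`: `(q, t g(q)) ↦ (θ(q), t)`. The Lagrangian `S` is the
preimage of an exact Lagrangian `S₁` of `T*S¹`. A Hamiltonian isotopy with Hamiltonian `K s` of
`T*S¹` which takes the zero section to `S₁` is lifted to the isotopy of `T*N` with Hamiltonian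
`K s (θ(q), ⟨p, X(q)⟩)`.
-/

set_option autoImplicit false

open scoped ContDiff Topology RealInnerProductSpace
open Set Filter

namespace Pool.Agent.H86.CQ

open Pool.Agent.H57.NL Pool.Agent.H2.TG Pool.Agent.H2.TI Pool.Agent.H73.CO

variable {m n : ℕ}

/-- Properties of the profile in the plane (as `PlaneSet`, without the symmetry `z ↦ -z`). -/
structure PSetC (Γ : Set ℂ) (f : ℂ → ℝ) : Prop where
  ne : Γ.Nonempty
  sub : IsSubmfd 1 Γ
  closed : IsClosed Γ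
  per : ∀ z ∈ Γ, z + ((2 * Real.pi : ℝ) : ℂ) ∈ Γ
  per' : ∀ z ∈ Γ, z - ((2 * Real.pi : ℝ) : ℂ) ∈ Γ
  bdd : ∃ R : ℝ, ∀ z ∈ Γ, |z.im| ≤ R
  prim : ∀ z ∈ Γ, (fun y : ℂ => f y - f z - z.im * (y.re - z.re)) =o[𝓝[Γ] z] (fun y => y - z)
  fper : ∀ z ∈ Γ, f (z + ((2 * Real.pi : ℝ) : ℂ)) = f z

/-- Data of the proofs: `V` is a smooth extension of the gradient, `X` one of `V / |V|²`, and `R` is
the flow of `X`. -/
structure CD (n : ℕ) (N : Set (E m)) (Pr : E m → (E m →L[ℝ] E m)) (F : E m → ℂ)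
    (V X : E m → E m) (R : ℝ → E m → E m) : Prop where
  mfd : ClosedMfd n N ⊥
  proj : ProjN N Pr
  circ : CircleMap N F V
  smooth : ContDiff ℝ ∞ V
  base : Base n N X R
  one : ∀ q ∈ N, ⟪V q, X q⟫ = 1
  dir : ∀ q ∈ N, V q = ‖V q‖ ^ 2 • X q

/-- `ℂ` as the Euclidean plane. -/
noncomputable def e2 (w : ℂ) : E 2 := !₂[w.re, w.im]

/-- The projection of `T*N` to `T*S¹`: `(q, p) ↦ (F(q), ⟨p, X(q)⟩)`. -/
noncomputable def pp (F : E m → ℂ) (X : E m → E m) (z : E m × E m) : E 2 × E 2 :=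
  (e2 (F z.1), ⟪z.2, X z.1⟫ • JJ (e2 (F z.1)))

/-- The covector with `⟨p, X⟩ = w.im` at the point `c (w.re)`. -/
noncomputable def phC (V : E m → E m) (c : ℝ → E m) (w : ℂ) : E m × E m :=
  (c w.re, w.im • V (c w.re))

/-- A flow line of `X` with the angle as parameter. -/
structure FL (N : Set (E m)) (F : E m → ℂ) (X : E m → E m) (c : ℝ → E m) : Prop where
  mem : ∀ θ, c θ ∈ N
  der : ∀ θ, HasDerivAt c (X (c θ)) θ
  lev : ∀ θ, F (c θ) = Complex.exp ((θ : ℂ) * Complex.I)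

/-- The set of the covectors `(q, t g(q))`. -/
def InM (g : E m → E m) (S : Set (E m × E m)) : Prop := ∀ z ∈ S, ∃ t : ℝ, z.2 = t • g z.1

/-- Saturation. -/
def SatS (N : Set (E m)) (F : E m → ℂ) (V : E m → E m) (S : Set (E m × E m))
    (f : E m × E m → ℝ) : Prop :=
  ∀ q ∈ N, ∀ q' ∈ N, F q' = F q → ∀ t : ℝ, (q, t • V q) ∈ S →
    (q', t • V q') ∈ S ∧ f (q', t • V q') = f (q, t • V q)

end Pool.Agent.H86.CQ
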