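import Pool.Agent.H86.CQ.CFlw
import Pool.Agent.H73.CO.HamC
import Pool.Agent.H2.TI.IFlow

/-!
# The isotopy

`H s (q, p) = α(s) χ₁(q) χ₂(p) K s (pp F X (q, p))`, where `K` is the Hamiltonian of the isotopy of
`T*S¹` and `α`, `χ₁`, `χ₂` are cut-off functions.
-/

set_option autoImplicit false

open scoped ContDiff Topology RealInnerProductSpace
open Set Filter

namespace Pool.Agent.H86.CQ

open Pool.Agent.H57.NL Pool.Agent.H2.TG Pool.Agent.H2.TI Pool.Agent.H73.CO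

variable {m n : ℕ} {N : Set (E m)} {Pr : E m → (E m →L[ℝ] E m)} {F : E m → ℂ}
  {g V X : E m → E m} {R : ℝ → E m → E m} {S : Set (E m × E m)} {f : E m × E m → ℝ}
  {c : ℝ → E m}

/-- a cut-off function -/
noncomputable def cut {W : Type*} [NormedAddCommGroup W] (r : ℝ) (x : W) : ℝ :=
  Real.smoothTransition (r ^ 2 + 2 - ‖x‖ ^ 2)

theorem cut_smooth {k : ℕ} (r : ℝ) : ContDiff ℝ ∞ fun x : E k => cut r x :=
  Real.smoothTransition.contDiff.comp (contDiff_const.sub (contDiff_id.norm_sq ℝ))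

theorem cut_one {W : Type*} [NormedAddCommGroup W] {r : ℝ} {x : W} (h : ‖x‖ ^ 2 ≤ r ^ 2 + 1) :
    cut r x = 1 := by
  unfold cut
  exact Real.smoothTransition.one_of_one_le (by linarith)

theorem cut_zero {W : Type*} [NormedAddCommGroup W] {r : ℝ} {x : W} (h : r ^ 2 + 2 ≤ ‖x‖ ^ 2) :
    cut r x = 0 := by
  unfold cut
  exact Real.smoothTransition.zero_of_nonpos (by linarith)

/-- the Hamiltonian -/
noncomputable def HH (F : E m → ℂ) (X : E m → E m) (K : ℝ → E 2 × E 2 → ℝ) (r₀ r₁ : ℝ) (s : ℝ)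
    (z : E m × E m) : ℝ :=
  Real.smoothTransition (2 - s ^ 2) * cut r₀ z.1 * cut r₁ z.2 * K s (pp F X z)

theorem pp_smooth (h : CD n N Pr F V X R) : ContDiff ℝ ∞ (pp F X) := by
  have h1 : ContDiff ℝ ∞ fun z : E m × E m => e2 (F z.1) :=
    eL.contDiff.comp (h.circ.smooth.comp contDiff_fst)
  have h2 : ContDiff ℝ ∞ fun z : E m × E m => (⟪z.2, X z.1⟫ : ℝ) :=
    contDiff_snd.inner ℝ (h.base.smooth.comp contDiff_fst)
  exact h1.prodMk (h2.smul (JL.contDiff.comp h1))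

theorem HH_smooth (h : CD n N Pr F V X R) {K : ℝ → E 2 × E 2 → ℝ}
    (hK : ContDiff ℝ ∞ fun x : ℝ × (E 2 × E 2) => K x.1 x.2) (r₀ r₁ : ℝ) :
    ContDiff ℝ ∞ fun x : ℝ × (E m × E m) => HH F X K r₀ r₁ x.1 x.2 := by
  have h1 : ContDiff ℝ ∞ fun x : ℝ × (E m × E m) => Real.smoothTransition (2 - x.1 ^ 2) :=
    Real.smoothTransition.contDiff.comp (contDiff_const.sub (contDiff_fst.pow 2))
  have h2 : ContDiff ℝ ∞ fun x : ℝ × (E m × E m) => cut r₀ x.2.1 :=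
    (cut_smooth r₀).comp (contDiff_fst.comp contDiff_snd)
  have h3 : ContDiff ℝ ∞ fun x : ℝ × (E m × E m) => cut r₁ x.2.2 :=
    (cut_smooth r₁).comp (contDiff_snd.comp contDiff_snd)
  have h4 : ContDiff ℝ ∞ fun x : ℝ × (E m × E m) => K x.1 (pp F X x.2) :=
    hK.comp (contDiff_fst.prodMk ((pp_smooth h).comp contDiff_snd))
  exact ((h1.mul h2).mul h3).mul h4

theorem HH_supp {K : ℝ → E 2 × E 2 → ℝ} (r₀ r₁ s : ℝ) (z : E m × E m)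
    (hz : 2 ≤ |s| ∨ r₀ ^ 2 + r₁ ^ 2 + 3 ≤ ‖z‖) : HH F X K r₀ r₁ s z = 0 := by
  unfold HH
  rcases hz with hz | hz
  · have h1 : 4 ≤ s ^ 2 := by
      rw [← sq_abs s]
      nlinarith
    rw [Real.smoothTransition.zero_of_nonpos (by linarith)]
    ring
  · rw [Prod.norm_def] at hz
    have h0 := sq_nonneg r₀
    have h1 := sq_nonneg r₁
    rcases le_max_iff.1 hz with h2 | h2
    · have h3 : r₀ ^ 2 + 2 ≤ ‖z.1‖ ^ 2 := by nlinarith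
      rw [cut_zero h3]
      ring
    · have h3 : r₁ ^ 2 + 2 ≤ ‖z.2‖ ^ 2 := by nlinarith
      rw [cut_zero h3]
      ring

/-- the flow line of the lifted Hamiltonian -/
theorem flow_key (h : CD n N Pr F V X R) {Ψ Ψ' : ℝ → E 2 × E 2 → E 2 × E 2}
    {K : ℝ → E 2 × E 2 → ℝ} (hK : HamIso N1 Ψ Ψ' K) {r₀ r₁ r : ℝ}
    (hr₀ : ∀ q ∈ N, ‖q‖ ≤ r₀) (hr₁ : ∀ w ∈ N1, ∀ s, |s| ≤ 1 → ∀ q ∈ N,
      ‖⟪(Ψ s (w, 0)).2, JJ (Ψ s (w, 0)).1⟫ • V q‖ ≤ r₁)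
    {Φ Φ' : ℝ → E m × E m → E m × E m} (hΦ : CFlow N Pr (HH F X K r₀ r₁) r Φ Φ')
    {w : E 2} (hw : w ∈ N1) {s₁ : ℝ} {q₁ : E m} (hq₁ : q₁ ∈ N)
    (hF : e2 (F q₁) = (Ψ s₁ (w, 0)).1) :
    ∃ q : ℝ → E m, q s₁ = q₁ ∧ (∀ s, q s ∈ N) ∧
      (∀ s, pp F X (q s, ⟪(Ψ s (w, 0)).2, JJ (Ψ s (w, 0)).1⟫ • V (q s)) = Ψ s (w, 0)) ∧
      ∀ s, |s| ≤ 1 → Φ s (q 0, 0) =
        (q s, ⟪(Ψ s (w, 0)).2, JJ (Ψ s (w, 0)).1⟫ • V (q s)) := by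
  have hw₀ : (w, (0 : E 2)) ∈ TN N1 := by
    obtain ⟨t, ht⟩ := exists_cc hw
    refine ⟨hw, ?_⟩
    show (0 : E 2) ∈ Tan N1 w
    rw [ht, circ_tan]
    exact ⟨0, by simp⟩
  obtain ⟨q, h1, h2, h3, h4⟩ := lift_curve h hK hw₀ hq₁ hF
  refine ⟨q, h1, h2, h3, fun s hs => ?_⟩
  have hd : ∀ s, |s| ≤ 1 → HasDerivAt (fun s =>
      (q s, ⟪(Ψ s (w, 0)).2, JJ (Ψ s (w, 0)).1⟫ • V (q s)))
      (XH Pr (HH F X K r₀ r₁ s) (q s, ⟪(Ψ s (w, 0)).2, JJ (Ψ s (w, 0)).1⟫ • V (q s))) s := by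
    intro s hs
    refine h4 s _ ?_
    have e1 := hr₀ (q s) (h2 s)
    have e2' := hr₁ w hw s hs (q s) (h2 s)
    have e3 : ∀ᶠ y : E m × E m in 𝓝 (q s, ⟪(Ψ s (w, 0)).2, JJ (Ψ s (w, 0)).1⟫ • V (q s)),
        ‖y.1‖ ^ 2 < r₀ ^ 2 + 1 := by
      have hc : Continuous fun y : E m × E m => ‖y.1‖ ^ 2 := continuous_fst.norm.pow 2
      refine hc.continuousAt.eventually_lt continuousAt_const ?_
      show ‖q s‖ ^ 2 < r₀ ^ 2 + 1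
      have := norm_nonneg (q s)
      nlinarith
    have e4 : ∀ᶠ y : E m × E m in 𝓝 (q s, ⟪(Ψ s (w, 0)).2, JJ (Ψ s (w, 0)).1⟫ • V (q s)),
        ‖y.2‖ ^ 2 < r₁ ^ 2 + 1 := by
      have hc : Continuous fun y : E m × E m => ‖y.2‖ ^ 2 := continuous_snd.norm.pow 2
      refine hc.continuousAt.eventually_lt continuousAt_const ?_
      show ‖⟪(Ψ s (w, 0)).2, JJ (Ψ s (w, 0)).1⟫ • V (q s)‖ ^ 2 < r₁ ^ 2 + 1
      have := norm_nonneg (⟪(Ψ s (w, 0)).2, JJ (Ψ s (w, 0)).1⟫ • V (q s))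
      nlinarith
    filter_upwards [e3, e4] with y hy1 hy2
    unfold HH
    have h5 : s ^ 2 ≤ 1 := by
      rw [← sq_abs s]
      have := abs_nonneg s
      nlinarith
    rw [cut_one hy1.le, cut_one hy2.le, Real.smoothTransition.one_of_one_le (by linarith)]
    ring
  have h5 := hΦ.uniq _ hd s hs
  have h6 : (q 0, ⟪(Ψ 0 (w, 0)).2, JJ (Ψ 0 (w, 0)).1⟫ • V (q 0)) = (q 0, 0) := by
    rw [hK.zero _ hw₀]
    simp
  rw [← h6]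
  exact h5.symm

theorem e2_mem (h : CD n N Pr F V X R) {q : E m} (hq : q ∈ N) : e2 (F q) ∈ N1 := by
  show ‖e2 (F q)‖ = 1
  rw [e2_norm, h.circ.unit q hq]

/-- **The isotopy.** -/
theorem finC (h : CD n N Pr F V X R) (hL : ExactLag n N ⊥ S f) (hM : InM V S)
    (hs : SatS N F V S f) :
    ∃ (Ψ Ψ' : ℝ → E m × E m → E m × E m) (H : ℝ → E m × E m → ℝ), HamIso N Ψ Ψ' H ∧
      Ψ 1 '' {z | z.1 ∈ N ∧ z.2 = 0} = S ∧
      (∀ s ∈ Icc (0 : ℝ) 1, ∀ z ∈ Ψ s '' {z | z.1 ∈ N ∧ z.2 = 0},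
        z.1 ∈ N ∧ ∃ t : ℝ, z.2 = t • V z.1) ∧
      ∃ K : ℝ → ℝ → E 2 × E 2 → ℝ, ∀ s, ∀ z ∈ TN N, H s z = K s ‖z.2‖ (pp F X z) := by
  -- a flow line
  obtain ⟨q₀, hq₀⟩ := h.mfd.conn.nonempty
  obtain ⟨θ₀, hθ₀⟩ := h.arg hq₀
  obtain ⟨c, hc, -⟩ := exists_FL h hq₀ hθ₀
  obtain ⟨Ψ, Ψ', K, hK, hΨ⟩ := circ_isoC (profC h hL hM hs hc)
  -- bounds
  have hcpt := closedMfd_compact h.mfd
  obtain ⟨r₀, hr₀⟩ := hcpt.isBounded.exists_norm_le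
  obtain ⟨C, hC⟩ : ∃ C : ℝ, ∀ y ∈ Icc (-1 : ℝ) 1 ×ˢ N1, ‖Ψ y.1 (y.2, 0)‖ ≤ C := by
    refine (isCompact_Icc.prod (closedMfd_compact circ_mfd)).exists_bound_of_continuousOn ?_
    have h1 : Continuous fun y : ℝ × E 2 => Ψ y.1 (y.2, 0) :=
      hK.smooth.continuous.comp (continuous_fst.prodMk (continuous_snd.prodMk continuous_const))
    exact h1.continuousOn
  obtain ⟨v₀, hv₀⟩ := hcpt.exists_bound_of_continuousOn h.smooth.continuous.continuousOn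
  have hbd : ∀ w ∈ N1, ∀ s, |s| ≤ 1 → ∀ q ∈ N,
      ‖⟪(Ψ s (w, 0)).2, JJ (Ψ s (w, 0)).1⟫ • V q‖ ≤ C * v₀ := by
    intro w hw s hs q hq
    have h1 : ‖Ψ s (w, 0)‖ ≤ C := hC (s, w) ⟨abs_le.1 hs, hw⟩
    have hw₀ : (w, (0 : E 2)) ∈ TN N1 := by
      obtain ⟨t, ht⟩ := exists_cc hw
      refine ⟨hw, ?_⟩
      show (0 : E 2) ∈ Tan N1 w
      rw [ht, circ_tan]
      exact ⟨0, by simp⟩
    have h2 : ‖(Ψ s (w, 0)).1‖ = 1 := ((hK.diffeo s).maps _ hw₀).1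
    have h3 : ‖JJ (Ψ s (w, 0)).1‖ = 1 := by
      have h4 : ‖JJ (Ψ s (w, 0)).1‖ ^ 2 = 1 := by
        rw [← real_inner_self_eq_norm_sq, JJ_iso, real_inner_self_eq_norm_sq, h2, one_pow]
      exact (pow_eq_one_iff_of_nonneg (norm_nonneg _) two_ne_zero).1 h4
    have h5 : |⟪(Ψ s (w, 0)).2, JJ (Ψ s (w, 0)).1⟫| ≤ C := by
      refine (abs_real_inner_le_norm _ _).trans ?_
      rw [h3, mul_one]
      exact (norm_snd_le _).trans h1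
    rw [norm_smul, Real.norm_eq_abs]
    exact mul_le_mul h5 (hv₀ q hq) (norm_nonneg _) ((abs_nonneg _).trans h5)
  have hHs := HH_smooth h hK.smoothH r₀ (C * v₀)
  have hsup : ∀ (s : ℝ) (z : E m × E m), 2 ≤ |s| ∨ r₀ ^ 2 + (C * v₀) ^ 2 + 3 ≤ ‖z‖ →
      HH F X K r₀ (C * v₀) s z = 0 := fun s z hz => HH_supp r₀ (C * v₀) s z hz
  obtain ⟨Φ, Φ', hΦ⟩ := exists_cflow h.mfd.sub h.mfd.closed h.proj hHs hsup
  have hI := cflow_hamIso h.mfd.sub h.proj hHs hsup hΦ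
  have key := fun {w : E 2} (hw : w ∈ N1) {s₁ : ℝ} {q₁ : E m} (hq₁ : q₁ ∈ N)
    (hF : e2 (F q₁) = (Ψ s₁ (w, 0)).1) => flow_key h hK hr₀ hbd hΦ hw hq₁ hF
  have hz0 : ∀ w ∈ N1, (w, (0 : E 2)) ∈ TN N1 := by
    intro w hw
    obtain ⟨t, ht⟩ := exists_cc hw
    refine ⟨hw, ?_⟩
    show (0 : E 2) ∈ Tan N1 w
    rw [ht, circ_tan]
    exact ⟨0, by simp⟩
  refine ⟨Φ, Φ', _, hI, ?_, ?_, ?_⟩
  · apply Subset.antisymm
    · rintro _ ⟨⟨q, p⟩, ⟨hq, hp⟩, rfl⟩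
      have hq' : q ∈ N := hq
      have hp' : p = 0 := hp
      subst hp'
      have hw := e2_mem h hq'
      obtain ⟨b, b1, b2, b3, b4⟩ := key hw (s₁ := 0) hq' (by rw [hK.zero _ (hz0 _ hw)])
      have e1 := b4 1 (by norm_num)
      rw [b1] at e1
      rw [e1]
      -- the end point is in `S₁`
      have e3 : Ψ 1 (e2 (F q), 0) ∈ ph1 '' {w | phC V c w ∈ S} := by
        rw [← hΨ]
        exact mem_image_of_mem (Ψ 1) (show (e2 (F q), (0 : E 2)) ∈ {z : E 2 × E 2 | z.1 ∈ N1 ∧ z.2 = 0}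
          from ⟨hw, rfl⟩)
      obtain ⟨u, hu, hu2⟩ := e3
      have e4 := b3 1
      rw [← hu2] at e4 ⊢
      have e5 : e2 (F (b 1)) = cc u.re := congrArg Prod.fst e4
      have e6 : F (b 1) = F (c u.re) := by
        apply e2_inj
        rw [e5, hc.lev, e2_exp]
      have e7 : ⟪(ph1 u).2, JJ (ph1 u).1⟫ = u.im := by
        show ⟪u.im • dd u.re, JJ (cc u.re)⟫ = u.im
        rw [JJ_cc, real_inner_smul_left, (cc_dd u.re u.re).2.2, sub_self, Real.cos_zero, mul_one]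
      rw [e7]
      exact (hs _ (hc.mem u.re) _ (b2 1) e6 u.im hu).1
    · intro z hz
      obtain ⟨t, ht⟩ := hM z hz
      have hzN : z.1 ∈ N := (hL.subTN hz).1
      obtain ⟨θ, hθ⟩ := h.arg hzN
      have e0 : (z.1, t • V z.1) ∈ S := by rw [← ht]; exact hz
      have e1 : phC V c ⟨θ, t⟩ ∈ S :=
        (hs _ hzN _ (hc.mem θ) (by rw [hc.lev, hθ]) t e0).1
      have e3 : ph1 ⟨θ, t⟩ ∈ Ψ 1 '' {z | z.1 ∈ N1 ∧ z.2 = 0} := by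
        rw [hΨ]
        exact mem_image_of_mem ph1 (show (⟨θ, t⟩ : ℂ) ∈ {w | phC V c w ∈ S} from e1)
      obtain ⟨⟨w, p⟩, ⟨hw, hp⟩, hwp⟩ := e3
      have hw' : w ∈ N1 := hw
      have hp' : p = 0 := hp
      subst hp'
      obtain ⟨b, b1, b2, b3, b4⟩ := key hw' (s₁ := 1) hzN (by
        rw [hwp, hθ, e2_exp]
        rfl)
      refine ⟨(b 0, 0), ⟨b2 0, rfl⟩, ?_⟩
      rw [b4 1 (by norm_num), b1, hwp]
      have e7 : ⟪(ph1 ⟨θ, t⟩).2, JJ (ph1 ⟨θ, t⟩).1⟫ = t := by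
        show ⟪t • dd θ, JJ (cc θ)⟫ = t
        rw [JJ_cc, real_inner_smul_left, (cc_dd θ θ).2.2, sub_self, Real.cos_zero, mul_one]
      rw [e7, ← ht]
  · rintro s hs' _ ⟨⟨q, p⟩, ⟨hq, hp⟩, rfl⟩
    have hq' : q ∈ N := hq
    have hp' : p = 0 := hp
    subst hp'
    have hw := e2_mem h hq'
    obtain ⟨b, b1, b2, b3, b4⟩ := key hw (s₁ := 0) hq' (by rw [hK.zero _ (hz0 _ hw)])
    have e1 := b4 s (abs_le.2 ⟨by linarith [hs'.1], hs'.2⟩)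
    rw [b1] at e1
    rw [e1]
    exact ⟨b2 s, _, rfl⟩
  · refine ⟨fun s x y => Real.smoothTransition (2 - s ^ 2) *
      Real.smoothTransition ((C * v₀) ^ 2 + 2 - x ^ 2) * K s y, fun s z hz => ?_⟩
    unfold HH
    have e1 : ‖z.1‖ ^ 2 ≤ r₀ ^ 2 + 1 := by
      have e2 := hr₀ z.1 hz.1
      have := norm_nonneg z.1
      nlinarith
    rw [cut_one e1, mul_one]
    rfl

end Pool.Agent.H86.CQ
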