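import Pool.Agent.H86.CQ.CDefs
import Pool.Agent.H2.TI.IMain

/-!
# The exact Lagrangian submanifold of `T*S¹` of a profile

As the modules CiB, CiC of `H73/CO`, for `PSetC` in place of `PlaneSet`.
-/

set_option autoImplicit false

open scoped ContDiff Topology RealInnerProductSpace
open Set Filter

namespace Pool.Agent.H86.CQ

open Pool.Agent.H57.NL Pool.Agent.H2.TG Pool.Agent.H2.TI Pool.Agent.H73.CO

private lemma clag_sh {Γ : Set ℂ} {f : ℂ → ℝ} (h : PSetC Γ f) (k : ℤ) :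
    ∀ z ∈ Γ, z + ((k * (2 * Real.pi) : ℝ) : ℂ) ∈ Γ ∧ f (z + ((k * (2 * Real.pi) : ℝ) : ℂ)) = f z := by
  have hm := h.per'
  induction k using Int.induction_on with
  | zero =>
    intro z hz
    simp [hz]
  | succ k ih =>
    intro z hz
    obtain ⟨h1, h2⟩ := ih z hz
    have e : z + (((((k : ℤ) + 1 : ℤ) : ℝ) * (2 * Real.pi) : ℝ) : ℂ) =
        z + ((((k : ℤ) : ℝ) * (2 * Real.pi) : ℝ) : ℂ) + ((2 * Real.pi : ℝ) : ℂ) := by
      push_cast
      ring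
    rw [e]
    exact ⟨h.per _ h1, by rw [h.fper _ h1, h2]⟩
  | pred k ih =>
    intro z hz
    obtain ⟨h1, h2⟩ := ih z hz
    have e : z + (((((-(k : ℤ)) - 1 : ℤ) : ℝ) * (2 * Real.pi) : ℝ) : ℂ) =
        z + ((((-(k : ℤ) : ℤ) : ℝ) * (2 * Real.pi) : ℝ) : ℂ) - ((2 * Real.pi : ℝ) : ℂ) := by
      push_cast
      ring
    have h3 := hm _ h1
    have h4 := h.fper _ h3
    rw [sub_add_cancel] at h4
    rw [e]
    exact ⟨h3, by rw [← h4, h2]⟩

private lemma clag_cont (θ₀ : ℝ) : Continuous (gh1 θ₀) := by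
  have e : gh1 θ₀ = fun z : E 2 × E 2 => ((θ₀ + Real.arcsin ⟪z.1, dd θ₀⟫ : ℝ) : ℂ) +
      ((⟪z.2, JJ z.1⟫ : ℝ) : ℂ) * Complex.I := by
    funext z
    exact Complex.mk_eq_add_mul_I _ _
  rw [e]
  have hJ : Continuous JJ := cc_smooth.2.2.1.continuous
  have h1 : Continuous fun z : E 2 × E 2 => ⟪z.1, dd θ₀⟫ := continuous_fst.inner continuous_const
  have h2 : Continuous fun z : E 2 × E 2 => ⟪z.2, JJ z.1⟫ := continuous_snd.inner (hJ.comp continuous_fst)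
  exact (Complex.continuous_ofReal.comp (continuous_const.add (Real.continuous_arcsin.comp h1))).add
    ((Complex.continuous_ofReal.comp h2).mul continuous_const)

private lemma clag_bwd {Γ : Set ℂ} {f : ℂ → ℝ} (h : PSetC Γ f) {θ₀ : ℝ} {y : E 2 × E 2}
    (hy : 0 < ⟪y.1, cc θ₀⟫) :
    ∀ᶠ y' in 𝓝 y, y' ∈ ph1 '' Γ → gh1 θ₀ y' ∈ Γ ∧ ph1 (gh1 θ₀ y') = y' := by
  have hc : Continuous fun z : E 2 × E 2 => ⟪z.1, cc θ₀⟫ := continuous_fst.inner continuous_const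
  filter_upwards [(isOpen_lt continuous_const hc).mem_nhds hy] with y' hy' hT
  obtain ⟨w, hw, rfl⟩ := hT
  obtain ⟨k, hk⟩ := gh1_spec hy'
  rw [hk]
  exact ⟨(clag_sh h k w hw).1, (ph1_eq_iff.2 ⟨k, rfl⟩).symm⟩

private lemma clag_loc {Γ : Set ℂ} {f : ℂ → ℝ} (h : PSetC Γ f) {w : ℂ} (hw : w ∈ Γ) :
    Pool.Agent.H99.TW.LocIm Γ (ph1 '' Γ) ph1 (gh1 w.re) (ph1 w) := by
  have h0 : gh1 w.re (ph1 w) = w := (gh1_ph1 w).self_of_nhds
  have hpos : 0 < ⟪(ph1 w).1, cc w.re⟫ := by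
    show 0 < ⟪cc w.re, cc w.re⟫
    rw [(cc_dd w.re w.re).2.1, sub_self, Real.cos_zero]
    exact one_pos
  refine ⟨by rw [h0]; exact hw, by rw [h0], ?_, gh1_smooth w, ?_, clag_bwd h hpos⟩
  · exact Filter.Eventually.of_forall fun x => cc_smooth.2.2.2.contDiffAt
  · rw [h0]
    filter_upwards [gh1_ph1 w] with x hx hxΓ
    exact ⟨⟨x, hxΓ, rfl⟩, hx⟩

private lemma clag_closed {Γ : Set ℂ} {f : ℂ → ℝ} (h : PSetC Γ f) : IsClosed (ph1 '' Γ) := by
  refine isClosed_of_closure_subset fun y hy => ?_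
  have hN : y.1 ∈ N1 := by
    have h1 : IsClosed {z : E 2 × E 2 | z.1 ∈ N1} := by
      have : IsClosed N1 := circ_mfd.closed
      exact this.preimage continuous_fst
    refine closure_minimal ?_ h1 hy
    rintro z ⟨w, -, rfl⟩
    exact cc_norm _
  obtain ⟨t, ht⟩ := exists_cc hN
  have hpos : 0 < ⟪y.1, cc t⟫ := by
    rw [ht, (cc_dd t t).2.1, sub_self, Real.cos_zero]
    exact one_pos
  have hne : (𝓝[ph1 '' Γ] y).NeBot := mem_closure_iff_nhdsWithin_neBot.1 hy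
  have hev : ∀ᶠ y' in 𝓝[ph1 '' Γ] y, gh1 t y' ∈ Γ ∧ ph1 (gh1 t y') = y' := by
    filter_upwards [(clag_bwd h hpos).filter_mono nhdsWithin_le_nhds, self_mem_nhdsWithin] with y' h1 h2
    exact h1 h2
  have hG : Tendsto (gh1 t) (𝓝[ph1 '' Γ] y) (𝓝 (gh1 t y)) :=
    ((clag_cont t).tendsto y).mono_left nhdsWithin_le_nhds
  have hmem : gh1 t y ∈ Γ := h.closed.mem_of_tendsto hG (hev.mono fun _ hx => hx.1)
  refine ⟨gh1 t y, hmem, ?_⟩
  have hp : Tendsto (fun y' => ph1 (gh1 t y')) (𝓝[ph1 '' Γ] y) (𝓝 (ph1 (gh1 t y))) :=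
    (cc_smooth.2.2.2.continuous.tendsto _).comp hG
  have hid : Tendsto (fun y' => ph1 (gh1 t y')) (𝓝[ph1 '' Γ] y) (𝓝 y) :=
    (tendsto_id.mono_left nhdsWithin_le_nhds : Tendsto id (𝓝[ph1 '' Γ] y) (𝓝 y)).congr'
      (hev.mono fun _ hx => hx.2.symm)
  exact tendsto_nhds_unique hp hid

/-- tangent vectors of a one dimensional submanifold are proportional -/
private lemma clag_line {Γ : Set ℂ} (hΓ : IsSubmfd 1 Γ) {w : ℂ} (hw : w ∈ Γ) {a b : ℂ} (ha : a ∈ Tan Γ w)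
    (hb : b ∈ Tan Γ w) : ∃ (r s : ℝ) (u : ℂ), a = r • u ∧ b = s • u := by
  obtain ⟨e, A, hxe, hs⟩ := hΓ.slice hw
  have ha' := (hs.mem_tan hxe hw a).1 ha
  have hb' := (hs.mem_tan hxe hw b).1 hb
  obtain ⟨v, -, hv⟩ := finrank_eq_one_iff'.1 hs.fr
  obtain ⟨r, hr⟩ := hv ⟨_, ha'⟩
  obtain ⟨s, hs'⟩ := hv ⟨_, hb'⟩
  refine ⟨r, s, fderiv ℝ e.symm (e w) (v : ℂ), ?_, ?_⟩
  · rw [← hs.left hxe a, ← map_smul]
    congr 1
    exact (congrArg Subtype.val hr).symm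
  · rw [← hs.left hxe b, ← map_smul]
    congr 1
    exact (congrArg Subtype.val hs').symm

private lemma clag_om (r s : ℝ) (v : E 2 × E 2) : om (r • v) (s • v) = 0 := by
  unfold om
  simp only [Prod.smul_fst, Prod.smul_snd, real_inner_smul_left, real_inner_smul_right]
  ring

theorem circ_lagC {Γ : Set ℂ} {f : ℂ → ℝ} (h : PSetC Γ f) :
    ∃ f₁, ExactLag 1 N1 ⊥ (ph1 '' Γ) f₁ := by
  classical
  set f₁ : E 2 × E 2 → ℝ := fun z => f (Function.invFunOn ph1 Γ z) with hf₁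
  have hf : ∀ w ∈ Γ, f₁ (ph1 w) = f w := by
    intro w hw
    have hex : ∃ a ∈ Γ, ph1 a = ph1 w := ⟨w, hw, rfl⟩
    have h1 := Function.invFunOn_mem hex
    have h2 := Function.invFunOn_eq hex
    obtain ⟨k, hk⟩ := ph1_eq_iff.1 h2
    have h3 := (clag_sh h k _ h1).2
    rw [← hk] at h3
    exact h3.symm
  refine ⟨f₁, ?_⟩
  constructor
  · exact h.ne.image _
  · refine Pool.Agent.H99.TW.locSub h.sub ?_
    rintro _ ⟨w, hw, rfl⟩
    exact ⟨ph1, gh1 w.re, clag_loc h hw⟩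
  · exact clag_closed h
  · rintro _ ⟨w, -, rfl⟩
    exact TN_N1.2 ⟨w, rfl⟩
  · rintro g hg z hz
    have hg0 : g = 0 := hg
    subst hg0
    have : tr 0 z = z := by
      unfold tr
      rw [add_zero]
    rw [this]
    exact hz
  · obtain ⟨R, hR⟩ := h.bdd
    refine ⟨R, ?_⟩
    rintro _ ⟨w, hw, rfl⟩
    show ‖w.im • dd w.re‖ ≤ R
    rw [norm_smul, dd_norm, mul_one, Real.norm_eq_abs]
    exact hR w hw
  · rintro _ ⟨w, hw, rfl⟩ v hv v' hv'
    have hL := clag_loc h hw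
    obtain ⟨h1, h2⟩ := Pool.Agent.H99.TW.tan_loc' hL hv
    obtain ⟨h1', h2'⟩ := Pool.Agent.H99.TW.tan_loc' hL hv'
    have h0 : gh1 w.re (ph1 w) = w := (gh1_ph1 w).self_of_nhds
    rw [h0] at h1 h1'
    obtain ⟨r, s, u, hr, hs⟩ := clag_line h.sub hw h1 h1'
    rw [← h2, ← h2', hr, hs, map_smul, map_smul]
    exact clag_om _ _ _
  · rintro _ ⟨w, hw, rfl⟩
    have hL := clag_loc h hw
    have h0 : gh1 w.re (ph1 w) = w := (gh1_ph1 w).self_of_nhds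
    have hGd : DifferentiableAt ℝ (gh1 w.re) (ph1 w) := hL.smooth'.self_of_nhds.differentiableAt (by simp)
    have hev : ∀ᶠ y in 𝓝[ph1 '' Γ] (ph1 w), gh1 w.re y ∈ Γ ∧ ph1 (gh1 w.re y) = y := by
      filter_upwards [hL.bwd.filter_mono nhdsWithin_le_nhds, self_mem_nhdsWithin] with y h1 h2
      exact h1 h2
    have hG0 : Tendsto (gh1 w.re) (𝓝[ph1 '' Γ] (ph1 w)) (𝓝 w) := by
      have := (hGd.continuousAt.tendsto).mono_left (nhdsWithin_le_nhds (s := ph1 '' Γ))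
      rwa [h0] at this
    have hG1 : Tendsto (gh1 w.re) (𝓝[ph1 '' Γ] (ph1 w)) (𝓝[Γ] w) :=
      tendsto_nhdsWithin_iff.2 ⟨hG0, hev.mono fun _ hx => hx.1⟩
    have hO : (fun y => gh1 w.re y - w) =O[𝓝[ph1 '' Γ] (ph1 w)] fun y => y - ph1 w := by
      have h1 := hGd.isBigO_sub
      rw [h0] at h1
      exact h1.mono nhdsWithin_le_nhds
    have hA : (fun y => f (gh1 w.re y) - f w - w.im * ((gh1 w.re y).re - w.re)) =o[𝓝[ph1 '' Γ] (ph1 w)]
        fun y => y - ph1 w := ((h.prim w hw).comp_tendsto hG1).trans_isBigO hO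
    -- the circle
    have hcd : (fun t : ℝ => cc t - cc w.re - (t - w.re) • dd w.re) =o[𝓝 w.re] fun t => t - w.re :=
      hasDerivAt_iff_isLittleO.1 (cc_der w.re).1
    have hre : Tendsto (fun y => (gh1 w.re y).re) (𝓝[ph1 '' Γ] (ph1 w)) (𝓝 w.re) :=
      (Complex.continuous_re.tendsto w).comp hG0
    have hreO : (fun y => (gh1 w.re y).re - w.re) =O[𝓝[ph1 '' Γ] (ph1 w)] fun y => y - ph1 w := by
      refine (Asymptotics.IsBigO.of_bound 1 (Filter.Eventually.of_forall fun y => ?_)).trans hO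
      rw [one_mul, ← Complex.sub_re]
      exact Complex.abs_re_le_norm _
    have hB : (fun y => cc (gh1 w.re y).re - cc w.re - ((gh1 w.re y).re - w.re) • dd w.re)
        =o[𝓝[ph1 '' Γ] (ph1 w)] fun y => y - ph1 w := (hcd.comp_tendsto hre).trans_isBigO hreO
    have hC : (fun y => ⟪w.im • dd w.re, cc (gh1 w.re y).re - cc w.re - ((gh1 w.re y).re - w.re) • dd w.re⟫)
        =o[𝓝[ph1 '' Γ] (ph1 w)] fun y => y - ph1 w := by
      refine (Asymptotics.IsBigO.of_bound ‖w.im • dd w.re‖ (Filter.Eventually.of_forall fun y => ?_)).trans_isLittleO hB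
      exact norm_inner_le_norm _ _
    refine (hA.sub hC).congr' ?_ Filter.EventuallyEq.rfl
    filter_upwards [hev] with y hy
    have e1 : f₁ y = f (gh1 w.re y) := by
      have := hf _ hy.1
      rwa [hy.2] at this
    have e2 : y.1 = cc (gh1 w.re y).re := (congrArg Prod.fst hy.2).symm
    have e3 : ⟪w.im • dd w.re, ((gh1 w.re y).re - w.re) • dd w.re⟫ = w.im * ((gh1 w.re y).re - w.re) := by
      rw [real_inner_smul_left, real_inner_smul_right, (cc_dd w.re w.re).2.2, sub_self, Real.cos_zero]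
      ring
    rw [inner_sub_right, e3, e1, hf w hw]
    show f (gh1 w.re y) - f w - w.im * ((gh1 w.re y).re - w.re) -
      (⟪w.im • dd w.re, cc (gh1 w.re y).re - cc w.re⟫ - w.im * ((gh1 w.re y).re - w.re)) =
      f (gh1 w.re y) - f w - ⟪w.im • dd w.re, y.1 - cc w.re⟫
    rw [e2]
    ring
  · rintro g hg z hz
    have hg0 : g = 0 := hg
    subst hg0
    have : tr 0 z = z := by
      unfold tr
      rw [add_zero]
    rw [this]

private lemma clag_dd (t : ℝ) : ⟪dd t, dd t⟫ = 1 := by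
  rw [(cc_dd t t).2.2, sub_self, Real.cos_zero]

private lemma clag_ph1 (w : ℂ) : (ph1 w).1 = cc w.re ∧ (ph1 w).2 = w.im • JJ (cc w.re) ∧
    ⟪(ph1 w).2, JJ (ph1 w).1⟫ = w.im := by
  refine ⟨rfl, ?_, ?_⟩
  · rw [JJ_cc]
    rfl
  · show ⟪w.im • dd w.re, JJ (cc w.re)⟫ = w.im
    rw [JJ_cc, real_inner_smul_left, clag_dd, mul_one]

private lemma clag_emb {Γ : Set ℂ} : EmbN JJ (ph1 '' Γ) := by
  refine ⟨?_, ?_⟩
  · rintro _ ⟨v, hv, rfl⟩ _ ⟨w, hw, rfl⟩ h1 h2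
    rw [(clag_ph1 v).2.2, (clag_ph1 w).2.2] at h2
    refine Prod.ext h1 ?_
    rw [(clag_ph1 v).2.1, (clag_ph1 w).2.1, h2]
    have h3 : cc v.re = cc w.re := h1
    rw [h3]
  · rintro z hz b ⟨γ, h0, hS, hd⟩ hb
    have hd1 : HasDerivAt (fun s => (γ s).1) 0 0 :=
      (ContinuousLinearMap.fst ℝ (E 2) (E 2)).hasFDerivAt.comp_hasDerivAt (0 : ℝ) hd
    have hd2 : HasDerivAt (fun s => (γ s).2) b 0 :=
      (ContinuousLinearMap.snd ℝ (E 2) (E 2)).hasFDerivAt.comp_hasDerivAt (0 : ℝ) hd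
    have hJ : HasFDerivAt JJ (fderiv ℝ JJ (γ 0).1) (γ 0).1 :=
      (cc_smooth.2.2.1.differentiable (by simp) _).hasFDerivAt
    have hd3 : HasDerivAt (fun s => JJ (γ s).1) 0 0 := by
      have := hJ.comp_hasDerivAt (0 : ℝ) hd1
      rw [map_zero] at this
      exact this
    have hr : HasDerivAt (fun s => ⟪(γ s).2, JJ (γ s).1⟫) 0 0 := by
      have := hd2.inner ℝ hd3
      rw [inner_zero_right, h0, hb, add_zero] at this
      exact this
    have h4 : HasDerivAt (fun s => ⟪(γ s).2, JJ (γ s).1⟫ • JJ (γ s).1) 0 0 := by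
      have := hr.smul hd3
      rw [smul_zero, zero_smul, add_zero] at this
      exact this
    have h5 : (fun s => (γ s).2) =ᶠ[𝓝 0] fun s => ⟪(γ s).2, JJ (γ s).1⟫ • JJ (γ s).1 := by
      filter_upwards [hS] with s hs
      obtain ⟨v, hv, hvs⟩ := hs
      rw [← hvs, (clag_ph1 v).2.2]
      exact (clag_ph1 v).2.1
    exact hd2.unique (h4.congr_of_eventuallyEq h5)

theorem circ_isoC {Γ : Set ℂ} {f : ℂ → ℝ} (h : PSetC Γ f) :
    ∃ (Ψ Ψ' : ℝ → E 2 × E 2 → E 2 × E 2) (H : ℝ → E 2 × E 2 → ℝ), HamIso N1 Ψ Ψ' H ∧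
      Ψ 1 '' {z | z.1 ∈ N1 ∧ z.2 = 0} = ph1 '' Γ := by
  obtain ⟨f₁, hL⟩ := circ_lagC h
  obtain ⟨Ψ, Ψ', H, h1, h2, -⟩ := iso_main circ_mfd cc_smooth.2.2.1 (by
    intro q hq
    obtain ⟨t, rfl⟩ := exists_cc hq
    rw [circ_tan, JJ_cc]
    exact ⟨1, (one_smul ℝ _).symm⟩) hL clag_emb
  exact ⟨Ψ, Ψ', H, h1, h2⟩

end Pool.Agent.H86.CQ
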