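import Pool.Agent.H86.CQ.CProf
import Pool.Agent.H86.CQ.CLag

/-!
# The lift of a Hamiltonian flow of `T*S¹`

`ζ s = Ψ s w₀` is a flow line in `T*S¹`, `x = ζ.1`, `ρ = ⟨ζ.2, J x⟩`, `a = ⟨x', J x⟩`. The curve
`q s = R (∫ a) q₁` satisfies `F (q s) = x s`, and `(q, ρ V(q))` is a flow line of the Hamiltonian
`K s ∘ pp F X` of `T*N`.
-/

set_option autoImplicit false

open scoped ContDiff Topology RealInnerProductSpace
open Set Filter

namespace Pool.Agent.H86.CQ

open Pool.Agent.H57.NL Pool.Agent.H2.TG Pool.Agent.H2.TI Pool.Agent.H73.CO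

variable {m n : ℕ} {N : Set (E m)} {Pr : E m → (E m →L[ℝ] E m)} {F : E m → ℂ}
  {g V X : E m → E m} {R : ℝ → E m → E m} {S : Set (E m × E m)} {f : E m × E m → ℝ}
  {c : ℝ → E m}

theorem cf_inner (x y : E 2) : ⟪x, y⟫ = x 0 * y 0 + x 1 * y 1 := by
  rw [PiLp.inner_apply, Fin.sum_univ_two]
  simp [mul_comm]

theorem cf_ext {x y : E 2} (h0 : x 0 = y 0) (h1 : x 1 = y 1) : x = y := by
  ext i
  fin_cases i
  · exact h0
  · exact h1

theorem JJ_skew (x : E 2) : ⟪JJ x, x⟫ = 0 := by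
  rw [cf_inner]
  simp [JJ]
  ring

theorem JJ_iso (x y : E 2) : ⟪JJ x, JJ y⟫ = ⟪x, y⟫ := by
  rw [cf_inner, cf_inner]
  simp [JJ]
  ring

theorem JJ_JJ (x : E 2) : JJ (JJ x) = -x := by
  refine cf_ext ?_ ?_ <;> simp [JJ]

theorem JJ_sub (x y : E 2) : JJ (x - y) = JJ x - JJ y := by
  refine cf_ext ?_ ?_
  · simp [JJ]
    ring
  · simp [JJ]

/-- `JJ` as a continuous linear map -/
noncomputable def JL : E 2 →L[ℝ] E 2 :=
  LinearMap.toContinuousLinearMap
    { toFun := JJ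
      map_add' := fun x y => by
        refine cf_ext ?_ ?_
        · simp [JJ]
          ring
        · simp [JJ]
      map_smul' := fun a x => by
        refine cf_ext ?_ ?_ <;> simp [JJ] }

theorem JL_apply (x : E 2) : JL x = JJ x := rfl

/-- `e2` as a continuous linear map -/
noncomputable def eL : ℂ →L[ℝ] E 2 :=
  LinearMap.toContinuousLinearMap
    { toFun := e2
      map_add' := fun x y => by
        refine cf_ext ?_ ?_ <;> simp [e2]
      map_smul' := fun a x => by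
        refine cf_ext ?_ ?_ <;> simp [e2] }

theorem eL_apply (x : ℂ) : eL x = e2 x := rfl

theorem e2_I (w : ℂ) : e2 (Complex.I * w) = JJ (e2 w) := by
  refine cf_ext ?_ ?_ <;> simp [e2, JJ]

theorem e2_smul (a : ℝ) (w : ℂ) : e2 (a • w) = a • e2 w := by
  rw [← eL_apply, map_smul, eL_apply]

theorem e2_norm (w : ℂ) : ‖e2 w‖ = ‖w‖ := by
  have h1 : ‖e2 w‖ ^ 2 = ‖w‖ ^ 2 := by
    rw [← real_inner_self_eq_norm_sq, cf_inner, Complex.sq_norm, Complex.normSq_apply]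
    simp [e2]
  exact (pow_left_inj₀ (norm_nonneg _) (norm_nonneg _) two_ne_zero).1 h1

theorem e2_exp (θ : ℝ) : e2 (Complex.exp ((θ : ℂ) * Complex.I)) = cc θ := by
  refine cf_ext ?_ ?_
  · simp [e2, cc, Complex.exp_ofReal_mul_I_re]
  · simp [e2, cc, Complex.exp_ofReal_mul_I_im]

theorem e2_inj {w w' : ℂ} (h : e2 w = e2 w') : w = w' := by
  have h0 := congrArg (fun x : E 2 => x 0) h
  have h1 := congrArg (fun x : E 2 => x 1) h
  simp [e2] at h0 h1
  exact Complex.ext h0 h1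

/-- the derivative of `pp` -/
theorem pp_deriv (h : CD n N Pr F V X R) {z v : E m × E m} (hz : z.1 ∈ N) (hv : v.1 ∈ Tan N z.1) :
    fderiv ℝ (pp F X) z v = ⟪V z.1, v.1⟫ • (JJ (e2 (F z.1)), ⟪z.2, X z.1⟫ • JJ (JJ (e2 (F z.1)))) +
      (⟪v.2, X z.1⟫ + ⟪z.2, fderiv ℝ X z.1 v.1⟫) • ((0 : E 2), JJ (e2 (F z.1))) := by
  have hf : HasFDerivAt (fun y : E m × E m => y.1) (ContinuousLinearMap.fst ℝ (E m) (E m)) z :=
    hasFDerivAt_fst
  have hs : HasFDerivAt (fun y : E m × E m => y.2) (ContinuousLinearMap.snd ℝ (E m) (E m)) z :=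
    hasFDerivAt_snd
  have hF : HasFDerivAt F (fderiv ℝ F z.1) z.1 :=
    (h.circ.smooth.differentiable (by simp) _).hasFDerivAt
  have hX : HasFDerivAt X (fderiv ℝ X z.1) z.1 :=
    (h.base.smooth.differentiable (by simp) _).hasFDerivAt
  have h1 := eL.hasFDerivAt.comp z (hF.comp z hf)
  have h2 := hX.comp z hf
  have h3 := hs.inner ℝ h2
  have h4 := JL.hasFDerivAt.comp z h1
  have h5 := h3.smul h4
  have h6 : HasFDerivAt (pp F X) _ z := h1.prodMk h5
  rw [h6.fderiv]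
  have h7 : fderiv ℝ F z.1 v.1 = ⟪V z.1, v.1⟫ • (Complex.I * F z.1) := h.circ.dF hz hv
  refine Prod.ext ?_ ?_
  · show eL (fderiv ℝ F z.1 v.1) = _
    rw [h7, eL_apply, e2_smul, e2_I]
    simp
  · show ⟪z.2, X z.1⟫ • JL (eL (fderiv ℝ F z.1 v.1)) +
      (fderivInnerCLM ℝ (z.2, X z.1) (v.2, fderiv ℝ X z.1 v.1)) • JL (eL (F z.1)) = _
    rw [h7, map_smul, map_smul, eL_apply, eL_apply, e2_I, JL_apply, JL_apply,
      fderivInnerCLM_apply]
    simp only [Prod.snd_add, Prod.smul_snd, smul_smul]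
    rw [mul_comm, add_comm ⟪z.2, fderiv ℝ X z.1 v.1⟫]

theorem lift_curve (h : CD n N Pr F V X R) {Ψ Ψ' : ℝ → E 2 × E 2 → E 2 × E 2}
    {K : ℝ → E 2 × E 2 → ℝ} (hK : HamIso N1 Ψ Ψ' K) {w₀ : E 2 × E 2} (hw₀ : w₀ ∈ TN N1) {s₁ : ℝ}
    {q₁ : E m} (hq₁ : q₁ ∈ N) (hF : e2 (F q₁) = (Ψ s₁ w₀).1) :
    ∃ q : ℝ → E m, q s₁ = q₁ ∧ (∀ s, q s ∈ N) ∧
      (∀ s, pp F X (q s, ⟪(Ψ s w₀).2, JJ (Ψ s w₀).1⟫ • V (q s)) = Ψ s w₀) ∧
      ∀ s, ∀ H : E m × E m → ℝ,
        H =ᶠ[𝓝 (q s, ⟪(Ψ s w₀).2, JJ (Ψ s w₀).1⟫ • V (q s))] (fun y => K s (pp F X y)) →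
        HasDerivAt (fun s => (q s, ⟪(Ψ s w₀).2, JJ (Ψ s w₀).1⟫ • V (q s)))
          (XH Pr H (q s, ⟪(Ψ s w₀).2, JJ (Ψ s w₀).1⟫ • V (q s))) s := by
  obtain ⟨ζ, hζ⟩ : ∃ ζ : ℝ → E 2 × E 2, ζ = fun s => Ψ s w₀ := ⟨_, rfl⟩
  have hζs : ContDiff ℝ ∞ ζ := by
    rw [hζ]
    exact hK.smooth.comp (contDiff_id.prodMk contDiff_const)
  have hζN : ∀ s, ζ s ∈ TN N1 := fun s => by
    rw [hζ]
    exact (hK.diffeo s).maps w₀ hw₀
  have hx : ∀ s, HasDerivAt (fun s => (ζ s).1) (deriv ζ s).1 s := fun s =>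
    ((hζs.differentiable (by simp) s).hasDerivAt).fst
  have hy : ∀ s, HasDerivAt (fun s => (ζ s).2) (deriv ζ s).2 s := fun s =>
    ((hζs.differentiable (by simp) s).hasDerivAt).snd
  have hN1 : ∀ s, ‖(ζ s).1‖ = 1 := fun s => (hζN s).1
  have hd : ContDiff ℝ ∞ (deriv ζ) := (contDiff_infty_iff_deriv.1 hζs).2
  -- `x' = a J x`
  obtain ⟨a, ha⟩ : ∃ a : ℝ → ℝ, a = fun s => ⟪(deriv ζ s).1, JJ (ζ s).1⟫ := ⟨_, rfl⟩
  have hac : Continuous a := by
    rw [ha]
    exact (continuous_fst.comp hd.continuous).inner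
      (JL.continuous.comp (continuous_fst.comp hζs.continuous))
  have hxx : ∀ s, ⟪(ζ s).1, (deriv ζ s).1⟫ = 0 := by
    intro s
    have h1 := (hx s).norm_sq
    have h2 : (fun s => ‖(ζ s).1‖ ^ 2) = fun _ => (1 : ℝ) := by
      funext s
      rw [hN1, one_pow]
    rw [h2] at h1
    have h3 := h1.unique (hasDerivAt_const s (1 : ℝ))
    linarith
  have hxa : ∀ s, (deriv ζ s).1 = a s • JJ (ζ s).1 := by
    intro s
    obtain ⟨w, hw⟩ := TN_N1.1 (hζN s)
    have h1 : deriv ζ s ∈ Tan (TN N1) (ζ s) := by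
      refine ⟨fun u => ζ (s + u), by simp, Eventually.of_forall fun u => hζN _, ?_⟩
      have h2 := ((hζs.differentiable (by simp) (s + 0)).hasDerivAt).comp_const_add s 0
      rwa [add_zero] at h2
    have h2 : (deriv ζ s).1 ∈ Tan N1 (ζ s).1 := tan_fst h1
    have h3 : (ζ s).1 = cc w.re := by rw [hw]; rfl
    rw [h3] at h2
    obtain ⟨r, hr⟩ := (circ_tan _).1 h2
    rw [ha]
    show (deriv ζ s).1 = ⟪(deriv ζ s).1, JJ (ζ s).1⟫ • JJ (ζ s).1
    rw [hr, h3, JJ_cc, real_inner_smul_left, (cc_dd w.re w.re).2.2, sub_self, Real.cos_zero,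
      mul_one]
  obtain ⟨τ, hτ⟩ : ∃ τ : ℝ → ℝ, τ = fun s => ∫ u in s₁..s, a u := ⟨_, rfl⟩
  have hτd : ∀ s, HasDerivAt τ (a s) s := fun s => by
    rw [hτ]
    exact (hac.integral_hasStrictDerivAt s₁ s).hasDerivAt
  have hτ0 : τ s₁ = 0 := by
    rw [hτ]
    exact intervalIntegral.integral_same
  obtain ⟨q, hq⟩ : ∃ q : ℝ → E m, q = fun s => R (τ s) q₁ := ⟨_, rfl⟩
  have hqN : ∀ s, q s ∈ N := fun s => by
    rw [hq]
    exact h.base.maps q₁ hq₁ _
  have hqd : ∀ s, HasDerivAt q (a s • X (q s)) s := fun s => by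
    rw [hq]
    exact (h.base.flow.deriv q₁ (τ s)).scomp s (hτd s)
  have hq0 : q s₁ = q₁ := by
    rw [hq]
    show R (τ s₁) q₁ = q₁
    rw [hτ0, h.base.flow.zero]
  -- `F (q s) = x s`
  have hFd : ∀ s, HasDerivAt (fun s => e2 (F (q s))) (a s • JJ (e2 (F (q s)))) s := by
    intro s
    have h1 := (h.circ.smooth.differentiable (by simp) (q s)).hasFDerivAt.comp_hasDerivAt s (hqd s)
    rw [map_smul, h.circ.dF (hqN s) (h.tanX (hqN s)), h.one _ (hqN s), one_smul] at h1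
    have h2 := eL.hasFDerivAt.comp_hasDerivAt s h1
    rw [map_smul, eL_apply, e2_I] at h2
    exact h2
  have hFx : ∀ s, e2 (F (q s)) = (ζ s).1 := by
    have hD : ∀ s, HasDerivAt (fun s => ‖e2 (F (q s)) - (ζ s).1‖ ^ 2) 0 s := by
      intro s
      have h1 := ((hFd s).sub (hx s)).norm_sq
      refine h1.congr_deriv ?_
      rw [hxa s, ← smul_sub, ← JJ_sub, inner_smul_right]
      have h2 : ⟪e2 (F (q s)) - (ζ s).1, JJ (e2 (F (q s)) - (ζ s).1)⟫ = 0 := by
        rw [real_inner_comm, JJ_skew]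
      show 2 * (a s * ⟪e2 (F (q s)) - (ζ s).1, JJ (e2 (F (q s)) - (ζ s).1)⟫) = 0
      rw [h2]
      ring
    intro s
    have h1 := is_const_of_deriv_eq_zero (fun t => (hD t).differentiableAt)
      (fun t => (hD t).deriv) s s₁
    rw [hq0, hF, hζ] at h1
    simp only [sub_self, norm_zero] at h1
    rw [hζ]
    have h2 : ‖e2 (F (q s)) - (Ψ s w₀).1‖ = 0 := by
      have h3 : ‖e2 (F (q s)) - (Ψ s w₀).1‖ ^ 2 = 0 := by
        rw [h1]
        norm_num
      exact pow_eq_zero_iff two_ne_zero |>.1 h3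
    exact sub_eq_zero.1 (norm_eq_zero.1 h2)
  obtain ⟨ρ, hρ⟩ : ∃ ρ : ℝ → ℝ, ρ = fun s => ⟪(ζ s).2, JJ (ζ s).1⟫ := ⟨_, rfl⟩
  have hζ2 : ∀ s, (ζ s).2 = ρ s • JJ (ζ s).1 := by
    intro s
    obtain ⟨w, hw⟩ := TN_N1.1 (hζN s)
    rw [hρ]
    show (ζ s).2 = ⟪(ζ s).2, JJ (ζ s).1⟫ • JJ (ζ s).1
    rw [hw]
    show w.im • dd w.re = ⟪w.im • dd w.re, JJ (cc w.re)⟫ • JJ (cc w.re)
    rw [JJ_cc, real_inner_smul_left, (cc_dd w.re w.re).2.2, sub_self, Real.cos_zero, mul_one]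
  have hρd : ∀ s, HasDerivAt ρ ⟪(deriv ζ s).2, JJ (ζ s).1⟫ s := by
    intro s
    have h1 : HasDerivAt (fun s => JJ (ζ s).1) (JJ (deriv ζ s).1) s :=
      JL.hasFDerivAt.comp_hasDerivAt s (hx s)
    have h2 := (hy s).inner ℝ h1
    rw [hρ]
    refine h2.congr_deriv ?_
    rw [hζ2 s, real_inner_smul_left, JJ_iso, hxx, mul_zero, zero_add]
  have hzd : ∀ s, HasDerivAt (fun s => (q s, ρ s • V (q s)))
      (a s • X (q s), ⟪(deriv ζ s).2, JJ (ζ s).1⟫ • V (q s) +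
        (ρ s * a s) • fderiv ℝ V (q s) (X (q s))) s := by
    intro s
    have h1 : HasDerivAt (fun s => V (q s)) (fderiv ℝ V (q s) (a s • X (q s))) s :=
      (h.smooth.differentiable (by simp) _).hasFDerivAt.comp_hasDerivAt s (hqd s)
    refine (hqd s).prodMk (((hρd s).smul h1).congr_deriv ?_)
    rw [map_smul, smul_smul, add_comm]
  have hpp : ∀ s, pp F X (q s, ρ s • V (q s)) = ζ s := by
    intro s
    refine Prod.ext (hFx s) ?_
    show ⟪ρ s • V (q s), X (q s)⟫ • JJ (e2 (F (q s))) = (ζ s).2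
    rw [real_inner_smul_left, h.one _ (hqN s), mul_one, hFx, ← hζ2]
  have e1 : ∀ s, ⟪(Ψ s w₀).2, JJ (Ψ s w₀).1⟫ = ρ s := fun s => by rw [hρ, hζ]
  simp only [e1]
  refine ⟨q, hq0, hqN, fun s => by rw [hpp, hζ], fun s H hH => ?_⟩
  have hzN : ∀ s, (q s, ρ s • V (q s)) ∈ TN N := fun s =>
    ⟨hqN s, Tan.smul (h.circ.tan _ (hqN s)) _⟩
  obtain ⟨z', hz'⟩ : ∃ z' : E m × E m, z' = (a s • X (q s), ⟪(deriv ζ s).2, JJ (ζ s).1⟫ • V (q s) +
        (ρ s * a s) • fderiv ℝ V (q s) (X (q s))) := ⟨_, rfl⟩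
  have hzd' := hzd s
  rw [← hz'] at hzd'
  have hzT : z' ∈ Tan (TN N) (q s, ρ s • V (q s)) := by
    refine ⟨fun u => (q (s + u), ρ (s + u) • V (q (s + u))), by simp,
      Eventually.of_forall fun u => hzN _, ?_⟩
    have h2 : HasDerivAt (fun s => (q s, ρ s • V (q s))) z' (s + 0) := by
      rw [add_zero]
      exact hzd'
    exact h2.comp_const_add s 0
  have hXT := xh_tan h.mfd.sub h.proj H (hzN s)
  have heq : z' - XH Pr H (q s, ρ s • V (q s)) = 0 := by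
    refine om_nondeg h.mfd.sub h.proj (hzN s)
      ((TN_submfd h.mfd.sub).tan_sub (hzN s) hzT hXT) fun v hv => ?_
    have hv1 : v.1 ∈ Tan N (q s) := tan_fst hv
    have q2 := xh_om h.mfd.sub h.proj H (hzN s) hv
    -- the derivative of the Hamiltonian
    obtain ⟨Y, hY1, hY2, hY3⟩ := hK.ham s w₀ hw₀
    have hYd : Y = deriv ζ s := by
      rw [hζ]
      exact hY2.deriv.symm
    have hΨ : Ψ s w₀ = ζ s := by rw [hζ]
    rw [hΨ] at hY1 hY3
    rw [hYd] at hY3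
    obtain ⟨w, hw⟩ := TN_N1.1 (hζN s)
    have hcw : (ζ s).1 = cc w.re := by rw [hw]; rfl
    have hρw : ρ s = w.im := by
      rw [hρ]
      show ⟪(ζ s).2, JJ (ζ s).1⟫ = w.im
      rw [hw]
      show ⟪w.im • dd w.re, JJ (cc w.re)⟫ = w.im
      rw [JJ_cc, real_inner_smul_left, (cc_dd w.re w.re).2.2, sub_self, Real.cos_zero, mul_one]
    have hA : (JJ (ζ s).1, ρ s • JJ (JJ (ζ s).1)) ∈ Tan (TN N1) (ζ s) := by
      refine ⟨fun u => ph1 (w + (u : ℂ)), ?_, Eventually.of_forall fun u => TN_N1.2 ⟨_, rfl⟩, ?_⟩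
      · simp [hw]
      · have h1 : HasDerivAt (fun u : ℝ => cc (w.re + u)) (dd w.re) 0 := by
          have h2 : HasDerivAt cc (dd w.re) (w.re + 0) := by
            rw [add_zero]
            exact (cc_der w.re).1
          exact h2.comp_const_add w.re 0
        have h3 : HasDerivAt (fun u : ℝ => w.im • dd (w.re + u)) (w.im • -cc w.re) 0 := by
          have h2 : HasDerivAt dd (-cc w.re) (w.re + 0) := by
            rw [add_zero]
            exact (cc_der w.re).2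
          exact (h2.comp_const_add w.re 0).const_smul w.im
        have h4 := h1.prodMk h3
        have h5 : (fun u : ℝ => ph1 (w + (u : ℂ))) =
            fun u : ℝ => (cc (w.re + u), w.im • dd (w.re + u)) := by
          funext u
          simp [ph1]
        rw [h5, hcw, hρw, JJ_JJ, JJ_cc]
        exact h4
    have hB : ((0 : E 2), JJ (ζ s).1) ∈ Tan (TN N1) (ζ s) := by
      refine ⟨fun u => ph1 (w + (u : ℂ) * Complex.I), ?_,
        Eventually.of_forall fun u => TN_N1.2 ⟨_, rfl⟩, ?_⟩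
      · simp [hw]
      · have h1 : HasDerivAt (fun _ : ℝ => cc w.re) 0 0 := hasDerivAt_const _ _
        have h3 : HasDerivAt (fun u : ℝ => (w.im + u) • dd w.re) ((1 : ℝ) • dd w.re) 0 :=
          ((hasDerivAt_id (0 : ℝ)).const_add w.im).smul_const (dd w.re)
        rw [one_smul] at h3
        have h4 := h1.prodMk h3
        have h5 : (fun u : ℝ => ph1 (w + (u : ℂ) * Complex.I)) =
            fun u : ℝ => (cc w.re, (w.im + u) • dd w.re) := by
          funext u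
          simp [ph1]
        rw [h5, hcw, JJ_cc]
        exact h4
    have kA := hY3 _ hA
    have kB := hY3 _ hB
    have kA' : fderiv ℝ (K s) (ζ s) (JJ (ζ s).1, ρ s • JJ (JJ (ζ s).1)) =
        -⟪(deriv ζ s).2, JJ (ζ s).1⟫ := by
      have e2 : om (deriv ζ s) (JJ (ζ s).1, ρ s • JJ (JJ (ζ s).1)) =
          ⟪(deriv ζ s).2, JJ (ζ s).1⟫ := by
        unfold om
        simp only
        rw [JJ_JJ, smul_neg, inner_neg_left, real_inner_smul_left, hxx]
        ring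
      linarith
    have kB' : fderiv ℝ (K s) (ζ s) ((0 : E 2), JJ (ζ s).1) = a s := by
      have e2 : om (deriv ζ s) ((0 : E 2), JJ (ζ s).1) = -a s := by
        unfold om
        simp only
        rw [ha, inner_zero_right, real_inner_comm]
        ring
      linarith
    have hHd : fderiv ℝ H (q s, ρ s • V (q s)) v = -⟪(deriv ζ s).2, JJ (ζ s).1⟫ * ⟪V (q s), v.1⟫ +
        a s * (⟪v.2, X (q s)⟫ + ⟪ρ s • V (q s), fderiv ℝ X (q s) v.1⟫) := by
      rw [hH.fderiv_eq]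
      have hKd : HasFDerivAt (K s) (fderiv ℝ (K s) (ζ s)) (pp F X (q s, ρ s • V (q s))) := by
        rw [hpp]
        have h1 : ContDiff ℝ ∞ (K s) := hK.smoothH.comp (contDiff_prodMk_right s)
        exact (h1.differentiable (by simp) _).hasFDerivAt
      have hppd : DifferentiableAt ℝ (pp F X) (q s, ρ s • V (q s)) := by
        have h1 : ContDiff ℝ ∞ fun z : E m × E m => e2 (F z.1) :=
          eL.contDiff.comp (h.circ.smooth.comp contDiff_fst)
        have h2 : ContDiff ℝ ∞ fun z : E m × E m => (⟪z.2, X z.1⟫ : ℝ) :=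
          contDiff_snd.inner ℝ (h.base.smooth.comp contDiff_fst)
        have h3 : ContDiff ℝ ∞ (pp F X) := h1.prodMk (h2.smul (JL.contDiff.comp h1))
        exact h3.differentiable (by simp) _
      have h1 := (hKd.comp _ hppd.hasFDerivAt).fderiv
      have h2 : fderiv ℝ (fun y => K s (pp F X y)) (q s, ρ s • V (q s)) = _ := h1
      rw [h2, ContinuousLinearMap.comp_apply, pp_deriv h (hqN s) hv1]
      have h3 : ⟪ρ s • V (q s), X (q s)⟫ = ρ s := by
        rw [real_inner_smul_left, h.one _ (hqN s), mul_one]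
      simp only [h3, hFx, map_add, map_smul, kA', kB', smul_eq_mul]
      ring
    -- `⟨V, DX v⟩ = -⟨DV v, X⟩`
    have hVX : ⟪V (q s), fderiv ℝ X (q s) v.1⟫ = -⟪fderiv ℝ V (q s) v.1, X (q s)⟫ := by
      obtain ⟨γ, g0, g1, g2⟩ := hv1
      have d1 : HasDerivAt (fun u => V (γ u)) (fderiv ℝ V (q s) v.1) 0 := by
        have := (h.smooth.differentiable (by simp) (γ 0)).hasFDerivAt.comp_hasDerivAt (0 : ℝ) g2
        rwa [g0] at this
      have d2 : HasDerivAt (fun u => X (γ u)) (fderiv ℝ X (q s) v.1) 0 := by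
        have := (h.base.smooth.differentiable (by simp) (γ 0)).hasFDerivAt.comp_hasDerivAt
          (0 : ℝ) g2
        rwa [g0] at this
      have d3 := d1.inner ℝ d2
      have d4 : HasDerivAt (fun u => ⟪V (γ u), X (γ u)⟫) 0 0 := by
        refine (hasDerivAt_const (0 : ℝ) (1 : ℝ)).congr_of_eventuallyEq ?_
        filter_upwards [g1] with u hu
        exact h.one _ hu
      have d5 := d3.unique d4
      rw [g0] at d5
      linarith
    have hsym := h.symm (hqN s) hv1 (h.tanX (hqN s))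
    have e3 : om (z' - XH Pr H (q s, ρ s • V (q s))) v =
        om z' v - om (XH Pr H (q s, ρ s • V (q s))) v := by
      unfold om
      simp only [Prod.snd_sub, Prod.fst_sub, inner_sub_left, inner_sub_right]
      ring
    rw [e3, q2, hHd, hz']
    unfold om
    simp only
    rw [inner_add_left, real_inner_smul_left, real_inner_smul_left, real_inner_smul_right,
      real_inner_smul_left, hVX, hsym]
    ring
  rw [← sub_eq_zero.1 heq]
  exact hzd'

end Pool.Agent.H86.CQ
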