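import Pool.Agent.H86.CQ.MDefs
import Pool.Agent.H86.CQ.CFin
import Pool.Agent.H73.CO.GMain

/-!
# Invariant exact Lagrangians, the orbit space being an interval or a circle
-/

set_option autoImplicit false

open scoped ContDiff Topology RealInnerProductSpace
open Set Filter

namespace Pool.Agent.H86.CQ

open Pool.Agent.H57.NL Pool.Agent.H2.TG Pool.Agent.H2.TI Pool.Agent.H73.CO

variable {m n : ℕ} {N : Set (E m)} {Pr : E m → (E m →L[ℝ] E m)} {F : E m → ℂ}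
  {g V X : E m → E m} {R : ℝ → E m → E m} {S : Set (E m × E m)} {f : E m × E m → ℝ}
  {G : Set (E m → E m)}

/-- The set of the covectors `(q, t g(q))` is closed. -/
theorem CD.closedM (h : CD n N Pr F V X R) (hVg : ∀ q ∈ N, V q = g q) {z : E m × E m}
    (hz : z ∈ MF N g) : z.1 ∈ N ∧ z.2 = ⟪z.2, X z.1⟫ • V z.1 := by
  have hX : Continuous X := h.base.smooth.continuous
  have hcl : IsClosed {z : E m × E m | z.1 ∈ N ∧ z.2 = ⟪z.2, X z.1⟫ • V z.1} := by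
    refine (h.mfd.closed.preimage continuous_fst).inter ?_
    have h1 : Continuous fun z : E m × E m => ⟪z.2, X z.1⟫ :=
      Continuous.inner (𝕜 := ℝ) continuous_snd (hX.comp continuous_fst)
    have h2 : Continuous fun z : E m × E m => V z.1 := h.smooth.continuous.comp continuous_fst
    exact isClosed_eq continuous_snd (h1.smul h2)
  refine closure_minimal ?_ hcl hz
  rintro z ⟨hz1, t, ht⟩
  refine ⟨hz1, ?_⟩
  rw [ht, ← hVg _ hz1, real_inner_smul_left, h.one _ hz1, mul_one]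

private theorem cm_inner {a : E m →L[ℝ] E m} (hi : ∀ x, ‖a x‖ = ‖x‖) (u v : E m) :
    ⟪a u, a v⟫ = ⟪u, v⟫ :=
  LinearIsometry.inner_map_map (⟨a.toLinearMap, hi⟩ : E m →ₗᵢ[ℝ] E m) u v

private theorem cm_tan {a : E m →L[ℝ] E m} (ha : ∀ q ∈ N, a q ∈ N) {q v : E m}
    (hv : v ∈ Tan N q) : a v ∈ Tan N (a q) := by
  obtain ⟨γ, h0, hS, hd⟩ := hv
  refine ⟨fun s => a (γ s), by simp only [h0], ?_, ?_⟩
  · filter_upwards [hS] with s hs
    exact ha _ hs
  · exact a.hasFDerivAt.comp_hasDerivAt (0 : ℝ) hd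

/-- derivative of `F` along a curve -/
private theorem cm_dF (h : CircleMap N F g) {γ : ℝ → E m} {v : E m} (hq : γ 0 ∈ N)
    (hS : ∀ᶠ s in 𝓝 (0 : ℝ), γ s ∈ N) (hd : HasDerivAt γ v 0) :
    HasDerivAt (fun s => F (γ s)) (⟪g (γ 0), v⟫ • (Complex.I * F (γ 0))) 0 := by
  have h1 : HasDerivAt (fun s => F (γ s)) (fderiv ℝ F (γ 0) v) 0 :=
    ((h.smooth.differentiable (by simp) (γ 0)).hasFDerivAt).comp_hasDerivAt (0 : ℝ) hd
  rw [h.dF hq ⟨γ, rfl, hS, hd⟩] at h1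
  exact h1

/-- The gradient commutes with the symmetries. -/
theorem CD.V_act (h : CD n N Pr F V X R) {a b : E m →L[ℝ] E m} (hab : a * b = 1)
    (hba : b * a = 1) (hi : ∀ x, ‖a x‖ = ‖x‖) (ha : ∀ q ∈ N, a q ∈ N) (hb : ∀ q ∈ N, b q ∈ N)
    (hinv : ∀ q ∈ N, F (a q) = F q) {q : E m} (hq : q ∈ N) : V (a q) = a (V q) := by
  have hl : ∀ x, b (a x) = x := fun x => by
    have := congrArg (fun c : E m →L[ℝ] E m => c x) hba
    simpa using this
  have hr : ∀ x, a (b x) = x := fun x => by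
    have := congrArg (fun c : E m →L[ℝ] E m => c x) hab
    simpa using this
  have haq := ha q hq
  refine tan_unique h.mfd.sub haq (h.circ.tan _ haq) (cm_tan ha (h.circ.tan q hq)) ?_
  intro v hv
  obtain ⟨κ, k0, hS, hd⟩ := hv
  have e1 := cm_dF h.circ (by rw [k0]; exact haq) hS hd
  have hd2 : HasDerivAt (fun s => b (κ s)) (b v) 0 := b.hasFDerivAt.comp_hasDerivAt (0 : ℝ) hd
  have hS2 : ∀ᶠ s in 𝓝 (0 : ℝ), b (κ s) ∈ N := by
    filter_upwards [hS] with s hs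
    exact hb _ hs
  have hk : b (κ 0) = q := by rw [k0]; exact hl q
  have e2 := cm_dF h.circ (γ := fun s => b (κ s)) (by simp only [hk]; exact hq) hS2 hd2
  simp only [hk] at e2
  rw [k0, hinv q hq] at e1
  have e3 : (fun s => F (κ s)) =ᶠ[𝓝 0] fun s => F (b (κ s)) := by
    filter_upwards [hS] with s hs
    have := hinv (b (κ s)) (hb _ hs)
    rw [hr] at this
    exact this
  have e4 := (e2.congr_of_eventuallyEq e3).unique e1
  have hne : Complex.I * F q ≠ 0 := by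
    refine mul_ne_zero Complex.I_ne_zero fun h0 => ?_
    have := h.circ.unit q hq
    rw [h0, norm_zero] at this
    exact zero_ne_one this
  have e5 : ⟪V q, b v⟫ = ⟪V (a q), v⟫ := by
    have e6 : (⟪V q, b v⟫ - ⟪V (a q), v⟫) • (Complex.I * F q) = 0 := by
      rw [sub_smul, e4, sub_self]
    rcases smul_eq_zero.1 e6 with e7 | e7
    · exact sub_eq_zero.1 e7
    · exact absurd e7 hne
  rw [← e5, ← cm_inner hi, hr]

/-- Equivariance of `X`. -/
theorem CD.X_act (h : CD n N Pr F V X R) {a b : E m →L[ℝ] E m} (hab : a * b = 1)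
    (hba : b * a = 1) (hi : ∀ x, ‖a x‖ = ‖x‖) (ha : ∀ q ∈ N, a q ∈ N) (hb : ∀ q ∈ N, b q ∈ N)
    (hinv : ∀ q ∈ N, F (a q) = F q) {q : E m} (hq : q ∈ N) : X (a q) = a (X q) := by
  have hV := h.V_act hab hba hi ha hb hinv hq
  have h1 := h.dir q hq
  have h2 := h.dir (a q) (ha q hq)
  have hne : ‖V q‖ ^ 2 ≠ 0 := by
    have h3 : V q ≠ 0 := h.circ.ne q hq
    have := norm_pos_iff.2 h3
    positivity
  rw [hV, hi] at h2
  have h3 : a (V q) = ‖V q‖ ^ 2 • a (X q) := by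
    conv_lhs => rw [h1]
    rw [map_smul]
  have h4 : ‖V q‖ ^ 2 • X (a q) = ‖V q‖ ^ 2 • a (X q) := by rw [← h2, ← h3]
  exact smul_right_injective _ hne h4

theorem CD.pp_act (h : CD n N Pr F V X R) {a b : E m →L[ℝ] E m} (hab : a * b = 1)
    (hba : b * a = 1) (hi : ∀ x, ‖a x‖ = ‖x‖) (ha : ∀ q ∈ N, a q ∈ N) (hb : ∀ q ∈ N, b q ∈ N)
    (hinv : ∀ q ∈ N, F (a q) = F q) {z : E m × E m} (hz : z.1 ∈ N) :
    pp F X (act a z) = pp F X z := by
  unfold pp act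
  simp only
  rw [hinv _ hz, h.X_act hab hba hi ha hb hinv hz, cm_inner hi]

/-- The linear maps in `G`. -/
private def GLin (G : Set (E m → E m)) : Set (E m →L[ℝ] E m) := {a | (fun x => a x) ∈ G}

private theorem GLin_mem (hG : OrbitsOf G N F) {b : E m → E m} (hb : b ∈ G) :
    ∃ a ∈ GLin G, ∀ x, a x = b x := by
  obtain ⟨a, ha, -⟩ := orth_lin (hG.orth b hb)
  refine ⟨a, ?_, ha⟩
  have : (fun x => a x) = b := funext ha
  show (fun x => a x) ∈ G
  rw [this]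
  exact hb

private theorem GLin_rot (hG : OrbitsOf G N F) : RotG (GLin G) where
  one := hG.one
  mul a ha b hb := hG.mul _ ha _ hb
  inv := by
    intro a ha
    obtain ⟨b, hb, hba⟩ := hG.inv _ ha
    obtain ⟨c, hc, hcb⟩ := hG.inv b hb
    obtain ⟨b', hb', hbb⟩ := GLin_mem hG hb
    have h1 : ∀ x, b (a x) = x := fun x => congrFun hba x
    have h2 : ∀ x, c (b x) = x := fun x => congrFun hcb x
    have h3 : ∀ x, c x = a x := by
      intro x
      have := h2 (a x)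
      rw [h1] at this
      exact this
    refine ⟨b', hb', ?_, ?_⟩
    · ext1 x
      show a (b' x) = x
      rw [hbb, ← h3, h2]
    · ext1 x
      show b' (a x) = x
      rw [hbb, h1]
  isom := by
    intro a ha x
    obtain ⟨a', ha', hn⟩ := orth_lin (hG.orth _ ha)
    have h1 := hn x
    rw [ha'] at h1
    exact h1
  closed := by
    have h1 : Continuous fun a : E m →L[ℝ] E m => (fun x => a x : E m → E m) :=
      continuous_pi fun x => (ContinuousLinearMap.apply ℝ (E m) x).continuous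
    exact hG.closed.preimage h1

/-- The circle. -/
theorem main_circle (hN : ClosedMfd n N ⊥) (hF : CircleMap N F g)
    (hconn : ∀ a : ℂ, IsPreconnected {q | q ∈ N ∧ F q = a}) (hL : ExactLag n N ⊥ S f)
    (hS : S ⊆ MF N g ∨ ∃ G : Set (E m → E m), OrbitsOf G N F ∧
      ∀ b ∈ G, ∀ z ∈ S, (b z.1, b z.2) ∈ S) :
    ∃ (Ψ Ψ' : ℝ → E m × E m → E m × E m) (H : ℝ → E m × E m → ℝ),
      HamIso N Ψ Ψ' H ∧ Ψ 1 '' {z | z.1 ∈ N ∧ z.2 = 0} = S ∧
      (∀ s ∈ Icc (0 : ℝ) 1, Ψ s '' {z | z.1 ∈ N ∧ z.2 = 0} ⊆ MF N g) ∧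
      ∀ b : E m → E m, Orth b → (∀ q, b q ∈ N ↔ q ∈ N) → (∀ q ∈ N, F (b q) = F q) →
        ∀ s, ∀ z ∈ TN N, Ψ s (b z.1, b z.2) = (b (Ψ s z).1, b (Ψ s z).2) := by
  obtain ⟨Pr, V, X, R, h, hVg⟩ := exists_CD hN hF
  have hM : InM V S := by
    rcases hS with hS | ⟨G, hG, hS⟩
    · intro z hz
      exact ⟨_, (h.closedM hVg (hS hz)).2⟩
    · intro z hz
      refine mem_line hN h.circ hL (GLin_rot hG) (fun a ha z hz => hS _ ha z hz) ?_ hz
      intro q hq q' hq' hqq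
      obtain ⟨b, hb, hbq⟩ := hG.trans q hq q' hq' hqq
      obtain ⟨a, ha, hab⟩ := GLin_mem hG hb
      exact ⟨a, ha, by rw [hab, hbq]⟩
  obtain ⟨Ψ, Ψ', H, h1, h2, h3, K, hK⟩ := finC h hL hM (satC h hconn hL hM)
  refine ⟨Ψ, Ψ', H, h1, h2, ?_, fun b hb hbN hbF s z hz => ?_⟩
  · intro s hs z hz
    obtain ⟨hzN, t, ht⟩ := h3 s hs z hz
    refine subset_closure ⟨hzN, t, ?_⟩
    rw [ht, hVg _ hzN]
  · obtain ⟨a, c, e1, e2, hab, e3⟩ := orth_inv hb
    have e4 : ∀ q ∈ N, a q ∈ N := fun q hq => by rw [hab]; exact (hbN q).2 hq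
    have e5 : ∀ q ∈ N, c q ∈ N := by
      intro q hq
      have h6 : b (c q) = q := by
        rw [← hab]
        exact congrArg (fun l : E m →L[ℝ] E m => l q) e1
      exact (hbN _).1 (by rw [h6]; exact hq)
    have e6 : ∀ q ∈ N, F (a q) = F q := fun q hq => by rw [hab]; exact hbF q hq
    have e8 : ∀ z ∈ TN N, act a z ∈ TN N := fun z hz => ⟨e4 _ hz.1, cm_tan e4 hz.2⟩
    have e9 : ∀ s, ∀ z ∈ TN N, H s (act a z) = H s z := by
      intro s z hz
      rw [hK s _ (e8 z hz), hK s z hz, h.pp_act e1 e2 e3 e4 e5 e6 hz.1]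
      have : ‖(act a z).2‖ = ‖z.2‖ := e3 z.2
      rw [this]
    have e10 := ham_equiv hN.sub h.proj h1 e1 e2 e3 e4 e5 e9 s hz
    simp only [act, hab] at e10
    exact e10

/-- **Interval or circle.** -/
theorem main_both (hN : ClosedMfd n N ⊥) (hF : OrbitMap N F g) (hL : ExactLag n N ⊥ S f)
    (hS : S ⊆ MF N g ∨ ∃ G : Set (E m → E m), OrbitsOf G N F ∧
      ∀ b ∈ G, ∀ z ∈ S, (b z.1, b z.2) ∈ S) :
    ∃ (Ψ Ψ' : ℝ → E m × E m → E m × E m) (H : ℝ → E m × E m → ℝ),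
      HamIso N Ψ Ψ' H ∧ Ψ 1 '' {z | z.1 ∈ N ∧ z.2 = 0} = S ∧
      (∀ s ∈ Icc (0 : ℝ) 1, Ψ s '' {z | z.1 ∈ N ∧ z.2 = 0} ⊆ MF N g) ∧
      ∀ b : E m → E m, Orth b → (∀ q, b q ∈ N ↔ q ∈ N) → (∀ q ∈ N, F (b q) = F q) →
        ∀ s, ∀ z ∈ TN N, Ψ s (b z.1, b z.2) = (b (Ψ s z).1, b (Ψ s z).2) := by
  rcases hF with ⟨F₀, hFF, hF⟩ | ⟨hF, hconn⟩
  · have hS' : S ⊆ MF N g ∨ ∃ G : Set (E m → E m), OrbitsAreLevels G N F₀ ∧
        ∀ b ∈ G, ∀ z ∈ S, (b z.1, b z.2) ∈ S := by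
      rcases hS with hS | ⟨G, hG, hS⟩
      · exact Or.inl hS
      · refine Or.inr ⟨G, ⟨hG.orth, hG.one, hG.mul, hG.inv, hG.closed, hG.maps, ?_, ?_⟩, hS⟩
        · intro b hb q hq
          have h1 := hG.finv b hb q hq
          rw [hFF _ (hG.maps b hb q hq), hFF q hq] at h1
          exact_mod_cast h1
        · intro q hq q' hq' hqq
          exact hG.trans q hq q' hq' (by rw [hFF q hq, hFF q' hq', hqq])
    obtain ⟨Ψ, Ψ', H, h1, h2, h3, h4⟩ := main_all hN hF hL hS'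
    refine ⟨Ψ, Ψ', H, h1, h2, h3, fun b hb hbN hbF => h4 b hb hbN fun q hq => ?_⟩
    have h5 := hbF q hq
    rw [hFF _ ((hbN q).2 hq), hFF q hq] at h5
    exact_mod_cast h5
  · exact main_circle hN hF hconn hL hS

end Pool.Agent.H86.CQ
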