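import Pool.Agent.H86.CQ.CPsh
import Pool.Agent.H73.CO.SubA

/-!
# The profile of `S`

`profC`: for a flow line `c`, the set of the `w` with `phC V c w ∈ S` has the properties `PSetC`.
-/

set_option autoImplicit false

open scoped ContDiff Topology RealInnerProductSpace
open Set Filter

namespace Pool.Agent.H86.CQ

open Pool.Agent.H57.NL Pool.Agent.H2.TG Pool.Agent.H2.TI Pool.Agent.H73.CO

variable {m n : ℕ} {N : Set (E m)} {Pr : E m → (E m →L[ℝ] E m)} {F : E m → ℂ}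
  {g V X : E m → E m} {R : ℝ → E m → E m} {S : Set (E m × E m)} {f : E m × E m → ℝ}
  {c : ℝ → E m}

theorem phC_smooth (h : CD n N Pr F V X R) (hc : FL N F X c) : ContDiff ℝ ∞ (phC V c) := by
  have hcs := hc.smooth h
  have hre : ContDiff ℝ ∞ (fun z : ℂ => z.re) := Complex.reCLM.contDiff
  have him : ContDiff ℝ ∞ (fun z : ℂ => z.im) := Complex.imCLM.contDiff
  exact (hcs.comp hre).prodMk (him.smul (h.smooth.comp (hcs.comp hre)))

theorem phC_deriv (h : CD n N Pr F V X R) (hc : FL N F X c) (z ζ : ℂ) :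
    fderiv ℝ (phC V c) z ζ = (ζ.re • X (c z.re),
      ζ.im • V (c z.re) + (ζ.re * z.im) • fderiv ℝ V (c z.re) (X (c z.re))) := by
  have hre : HasFDerivAt (fun z : ℂ => z.re) Complex.reCLM z := Complex.reCLM.hasFDerivAt
  have him : HasFDerivAt (fun z : ℂ => z.im) Complex.imCLM z := Complex.imCLM.hasFDerivAt
  have hc1 : HasDerivAt c (X (c z.re)) z.re := hc.der z.re
  have hc2 : HasDerivAt (fun t => V (c t)) (fderiv ℝ V (c z.re) (X (c z.re))) z.re :=
    (h.smooth.differentiable (by simp) _).hasFDerivAt.comp_hasDerivAt _ hc1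
  have e1 := hc1.hasFDerivAt.comp z hre
  have e2 := hc2.hasFDerivAt.comp z hre
  have e3 := him.smul e2
  have e4 := e1.prodMk e3
  have e5 : HasFDerivAt (phC V c) _ z := e4
  rw [e5.fderiv]
  refine Prod.ext ?_ ?_
  · simp
  · simp only [ContinuousLinearMap.prod_apply, Function.comp_apply]
    simp [smul_smul]
    rw [add_comm, mul_comm]

private theorem cprof_fun (h : CD n N Pr F V X R) (hL : ExactLag n N ⊥ S f) (hc : FL N F X c)
    {z₀ : ℂ} (hz : phC V c z₀ ∈ S) : ∃ G₀ : ℂ → ℝ, (∀ᶠ z in 𝓝 z₀, ContDiffAt ℝ ∞ G₀ z) ∧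
      fderiv ℝ G₀ z₀ ≠ 0 ∧ ∀ᶠ z in 𝓝 z₀, z ∈ {w | phC V c w ∈ S} → G₀ z = 0 := by
  obtain ⟨e, A, hxe, hs⟩ := hL.sub.slice hz
  have hsm := phC_smooth h hc
  have hphd : HasFDerivAt (phC V c) (fderiv ℝ (phC V c) z₀) z₀ :=
    ((hsm.differentiable (by simp)) z₀).hasFDerivAt
  have hex : ∃ ζ : ℂ, fderiv ℝ e (phC V c z₀) (fderiv ℝ (phC V c) z₀ ζ) ∉ A := by
    by_contra hcon
    push Not at hcon
    have a1 := (hs.mem_tan hxe hz _).2 (hcon 1)
    have a2 := (hs.mem_tan hxe hz _).2 (hcon Complex.I)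
    have a3 := hL.lag _ hz _ a1 _ a2
    rw [phC_deriv h hc, phC_deriv h hc] at a3
    have hu := h.one _ (hc.mem z₀.re)
    simp [om] at a3
    rw [a3] at hu
    exact zero_ne_one hu
  obtain ⟨ζ, hζ⟩ := hex
  obtain ⟨l, hl1, hl2⟩ := Submodule.exists_le_ker_of_notMem hζ
  set L : (E m × E m) →L[ℝ] ℝ := LinearMap.toContinuousLinearMap l with hLdef
  have hLl : ∀ x, L x = l x := fun x => rfl
  have hsrc : ∀ᶠ z in 𝓝 z₀, phC V c z ∈ e.source :=
    hsm.continuous.continuousAt.tendsto.eventually (e.open_source.mem_nhds hxe)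
  refine ⟨fun z => L (e (phC V c z)), ?_, ?_, ?_⟩
  · filter_upwards [hsrc] with z hz1
    exact L.contDiff.contDiffAt.comp z ((hs.cd hz1).comp z hsm.contDiffAt)
  · intro h0
    have h1 : HasFDerivAt (fun z => L (e (phC V c z)))
        (L.comp ((fderiv ℝ e (phC V c z₀)).comp (fderiv ℝ (phC V c) z₀))) z₀ :=
      L.hasFDerivAt.comp z₀ ((hs.hd hxe).comp z₀ hphd)
    have h2 := h1.fderiv
    rw [h0] at h2
    have h3 := congrArg (fun T : ℂ →L[ℝ] ℝ => T ζ) h2
    simp only [ContinuousLinearMap.comp_apply] at h3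
    exact hl1 (by rw [← hLl]; simpa using h3.symm)
  · filter_upwards [hsrc] with z hz1 hz2
    have h1 : e (phC V c z) ∈ A := (hs.iff _ hz1).1 hz2
    have h2 := hl2 h1
    rw [LinearMap.mem_ker] at h2
    show L (e (phC V c z)) = 0
    rw [hLl]
    exact h2

/-- points of `S` -/
private theorem cprof_form (h : CD n N Pr F V X R) (hL : ExactLag n N ⊥ S f) (hM : InM V S)
    {y : E m × E m} (hy : y ∈ S) : y.2 = ⟪y.2, X y.1⟫ • V y.1 := by
  obtain ⟨t, ht⟩ := hM y hy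
  have hN : y.1 ∈ N := (hL.subTN hy).1
  rw [ht, real_inner_smul_left, h.one _ hN, mul_one]

private theorem cprof_db (h : CD n N Pr F V X R) {γ : ℝ → E m × E m} {w : E m × E m}
    (hd : HasDerivAt γ w 0) :
    HasDerivAt (fun s => ⟪(γ s).2, X (γ s).1⟫)
      (⟪w.2, X (γ 0).1⟫ + ⟪(γ 0).2, fderiv ℝ X (γ 0).1 w.1⟫) 0 := by
  have h1 : HasDerivAt (fun s => (γ s).1) w.1 0 := hd.fst
  have h2 : HasDerivAt (fun s => (γ s).2) w.2 0 := hd.snd
  have h3 := (h.base.smooth.differentiable (by simp) (γ 0).1).hasFDerivAt.comp_hasDerivAt (0 : ℝ) h1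
  have h4 := h2.inner ℝ h3
  refine h4.congr_deriv ?_
  simp only [Function.comp]
  ring

private theorem cprof_vec (h : CD n N Pr F V X R) (hL : ExactLag n N ⊥ S f) (hM : InM V S)
    {y : E m × E m} (hy : y ∈ S) :
    ∃ w ∈ Tan S y, ⟪V y.1, w.1⟫ ≠ 0 ∨ ⟪w.2, X y.1⟫ + ⟪y.2, fderiv ℝ X y.1 w.1⟫ ≠ 0 := by
  by_contra hcon
  push Not at hcon
  have hq : y.1 ∈ N := (hL.subTN hy).1
  have hT : ∀ w ∈ Tan S y, w.1 ∈ Tan N y.1 := fun w hw => by
    obtain ⟨γ, h0, hS, hd⟩ := hw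
    exact tan_fst (z := y) ⟨γ, h0, hS.mono fun s hs => hL.subTN hs, hd⟩
  have key : ∀ w ∈ Tan S y, w.2 = ⟪y.2, X y.1⟫ • fderiv ℝ V y.1 w.1 := by
    intro w hw
    obtain ⟨-, e2⟩ := hcon w hw
    obtain ⟨γ, h0, hS, hd⟩ := hw
    subst h0
    have d2 := cprof_db h hd
    rw [e2] at d2
    have d5 : HasDerivAt (fun s => V (γ s).1) (fderiv ℝ V (γ 0).1 w.1) 0 := by
      have h1 : HasDerivAt (fun s => (γ s).1) w.1 0 := hd.fst
      exact (h.smooth.differentiable (by simp) (γ 0).1).hasFDerivAt.comp_hasDerivAt (0 : ℝ) h1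
    have d6 := d2.smul d5
    have hev : (fun s => (γ s).2) =ᶠ[𝓝 0] fun s => ⟪(γ s).2, X (γ s).1⟫ • V (γ s).1 := by
      filter_upwards [hS] with s h1
      exact cprof_form h hL hM h1
    have d7 : HasDerivAt (fun s => (γ s).2) w.2 0 := hd.snd
    have d8 := d7.unique (d6.congr_of_eventuallyEq hev)
    rw [d8, zero_smul, add_zero]
  obtain ⟨L, hL1, hL2⟩ := tan_finrank hL.sub hy
  obtain ⟨M, hM1, hM2⟩ := tan_finrank h.mfd.sub hq
  have hLm : ∀ w : L, (w : E m × E m) ∈ Tan S y := fun w => by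
    rw [← hL1]
    exact w.2
  have hmem : ∀ w : L, (w : E m × E m).1 ∈ M := fun w => by
    have : (w : E m × E m).1 ∈ (M : Set (E m)) := by
      rw [hM1]
      exact hT _ (hLm w)
    exact this
  let φ : L →ₗ[ℝ] M :=
    { toFun := fun w => ⟨(w : E m × E m).1, hmem w⟩
      map_add' := fun a b => rfl
      map_smul' := fun a b => rfl }
  have hinj : Function.Injective φ := by
    rw [← LinearMap.ker_eq_bot, LinearMap.ker_eq_bot']
    intro w hw
    have h1 : (w : E m × E m).1 = 0 := congrArg Subtype.val hw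
    have h2 := key _ (hLm w)
    rw [h1, map_zero, smul_zero] at h2
    exact Subtype.ext (Prod.ext h1 h2)
  have hsur : Function.Surjective φ :=
    (LinearMap.injective_iff_surjective_of_finrank_eq_finrank (hL2.trans hM2.symm)).1 hinj
  have hg : V y.1 ∈ M := by
    have : V y.1 ∈ (M : Set (E m)) := by
      rw [hM1]
      exact h.circ.tan _ hq
    exact this
  obtain ⟨w, hw⟩ := hsur ⟨V y.1, hg⟩
  have hw1 : (w : E m × E m).1 = V y.1 := congrArg Subtype.val hw
  have h1 := (hcon _ (hLm w)).1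
  rw [hw1] at h1
  exact h.circ.ne _ hq (inner_self_eq_zero.1 h1)

/-- the arcsine of the imaginary part -/
private theorem cprof_exp {w : ℂ} (h1 : ‖w‖ = 1) (h2 : 0 < w.re) :
    Complex.exp ((Real.arcsin w.im : ℂ) * Complex.I) = w := by
  have h3 : w.re ^ 2 + w.im ^ 2 = 1 := by
    have h4 := Complex.sq_norm w
    rw [h1, Complex.normSq_apply] at h4
    nlinarith
  have h5 : w.im ≤ 1 := by nlinarith
  have h6 : -1 ≤ w.im := by nlinarith
  rw [Complex.exp_mul_I, ← Complex.ofReal_cos, ← Complex.ofReal_sin, Real.sin_arcsin h6 h5,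
    Real.cos_arcsin]
  have h7 : √(1 - w.im ^ 2) = w.re := by
    rw [show 1 - w.im ^ 2 = w.re ^ 2 by linarith, Real.sqrt_sq h2.le]
  rw [h7, Complex.re_add_im]

theorem subAtC (h : CD n N Pr F V X R) (hL : ExactLag n N ⊥ S f) (hM : InM V S)
    (hs : SatS N F V S f) (hc : FL N F X c) {z₀ : ℂ} (hz : phC V c z₀ ∈ S) :
    SubAt 1 {w | phC V c w ∈ S} z₀ := by
  obtain ⟨w, hw, hor⟩ := cprof_vec h hL hM hz
  have hw1 : w.1 ∈ Tan N (phC V c z₀).1 := by
    obtain ⟨γ, h0, hS, hd⟩ := hw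
    exact tan_fst (z := phC V c z₀) ⟨γ, h0, hS.mono fun s hs => hL.subTN hs, hd⟩
  obtain ⟨γ, h0, hd, hev⟩ := tan_smooth hL.sub hz hw
  obtain ⟨G₀, hG1, hG2, hG3⟩ := cprof_fun h hL hc hz
  -- the number `exp (-i θ₀)`
  obtain ⟨κ, hκ⟩ : ∃ κ : ℂ, κ = Complex.exp (-((z₀.re : ℂ) * Complex.I)) := ⟨_, rfl⟩
  have hκn : ‖κ‖ = 1 := by
    rw [hκ, show -((z₀.re : ℂ) * Complex.I) = ((-z₀.re : ℝ) : ℂ) * Complex.I by push_cast; ring]
    exact Complex.norm_exp_ofReal_mul_I _
  have hγ1 : (γ 0).1 = c z₀.re := by rw [h0]; rfl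
  have hκF : κ * F (γ 0).1 = 1 := by
    rw [hγ1, hc.lev, hκ, ← Complex.exp_add, neg_add_cancel, Complex.exp_zero]
  -- the derivative of the angle
  have dF : HasDerivAt (fun s => F (γ s).1) (⟪V (γ 0).1, w.1⟫ • (Complex.I * F (γ 0).1)) 0 := by
    have h1 : HasDerivAt (fun s => (γ s).1) w.1 0 := hd.fst
    have h2 := (h.circ.smooth.differentiable (by simp) (γ 0).1).hasFDerivAt.comp_hasDerivAt
      (0 : ℝ) h1
    have h3 : (γ 0).1 ∈ N := by rw [hγ1]; exact hc.mem _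
    have h4 : w.1 ∈ Tan N (γ 0).1 := by rw [h0]; exact hw1
    rw [h.circ.dF h3 h4] at h2
    exact h2
  have dI : HasDerivAt (fun s => (κ * F (γ s).1).im) ⟪V (γ 0).1, w.1⟫ 0 := by
    have h1 := dF.const_mul κ
    have h2 := Complex.imCLM.hasFDerivAt.comp_hasDerivAt (0 : ℝ) h1
    refine h2.congr_deriv ?_
    rw [mul_smul_comm, mul_left_comm, hκF]
    simp
  have dA : HasDerivAt (fun s => Real.arcsin (κ * F (γ s).1).im) ⟪V (γ 0).1, w.1⟫ 0 := by
    have h1 : HasDerivAt Real.arcsin (1 / √(1 - (κ * F (γ 0).1).im ^ 2)) (κ * F (γ 0).1).im := by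
      apply Real.hasDerivAt_arcsin <;> rw [hκF] <;> simp
    have h2 := h1.comp (0 : ℝ) dI
    refine h2.congr_deriv ?_
    rw [hκF]
    simp
  have db := cprof_db h hd
  obtain ⟨T, hT⟩ : ∃ T : ℝ → ℝ, T = fun s => z₀.re + Real.arcsin (κ * F (γ s).1).im := ⟨_, rfl⟩
  obtain ⟨P, hP⟩ : ∃ P : ℝ → ℝ, P = fun s => ⟪(γ s).2, X (γ s).1⟫ := ⟨_, rfl⟩
  have dT : HasDerivAt T ⟪V (γ 0).1, w.1⟫ 0 := by
    rw [hT]
    exact dA.const_add z₀.re
  have dP : HasDerivAt P (⟪w.2, X (γ 0).1⟫ + ⟪(γ 0).2, fderiv ℝ X (γ 0).1 w.1⟫) 0 := by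
    rw [hP]
    exact db
  obtain ⟨x, hx⟩ : ∃ x : ℝ → ℂ, x = fun s => ((T s : ℝ) : ℂ) + ((P s : ℝ) : ℂ) * Complex.I :=
    ⟨_, rfl⟩
  have hxre : ∀ s, (x s).re = T s := fun s => by
    rw [hx]
    simp
  have hxim : ∀ s, (x s).im = P s := fun s => by
    rw [hx]
    simp
  have hx0 : x 0 = z₀ := by
    apply Complex.ext
    · rw [hxre, hT]
      show z₀.re + Real.arcsin (κ * F (γ 0).1).im = z₀.re
      rw [hκF]
      simp
    · rw [hxim, hP]
      show ⟪(γ 0).2, X (γ 0).1⟫ = z₀.im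
      rw [h0]
      show ⟪z₀.im • V (c z₀.re), X (c z₀.re)⟫ = z₀.im
      rw [real_inner_smul_left, h.one _ (hc.mem _), mul_one]
  obtain ⟨v, hv⟩ : ∃ v : ℂ, v = ((⟪V (γ 0).1, w.1⟫ : ℝ) : ℂ) +
    ((⟪w.2, X (γ 0).1⟫ + ⟪(γ 0).2, fderiv ℝ X (γ 0).1 w.1⟫ : ℝ) : ℂ) * Complex.I := ⟨_, rfl⟩
  have hxd : HasDerivAt x v 0 := by
    rw [hx, hv]
    exact dT.ofReal_comp.add (dP.ofReal_comp.mul_const Complex.I)
  have hv0 : v ≠ 0 := by
    intro h1
    have h2 : v.re = 0 := by rw [h1]; rfl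
    have h3 : v.im = 0 := by rw [h1]; rfl
    rw [hv] at h2 h3
    have h2' : ⟪V (γ 0).1, w.1⟫ = 0 := by
      simpa only [Complex.add_re, Complex.ofReal_re, Complex.mul_re, Complex.ofReal_im,
        Complex.I_re, Complex.I_im, mul_zero, zero_mul, sub_zero, add_zero] using h2
    have h3' : ⟪w.2, X (γ 0).1⟫ + ⟪(γ 0).2, fderiv ℝ X (γ 0).1 w.1⟫ = 0 := by
      simpa only [Complex.add_im, Complex.ofReal_im, Complex.mul_im, Complex.ofReal_re,
        Complex.I_re, Complex.I_im, mul_zero, mul_one, zero_add, add_zero] using h3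
    rw [h0] at h2' h3'
    rcases hor with h4 | h4
    · exact h4 h2'
    · exact h4 h3'
  refine subAt_of_curve hG1 hG2 hz hG3 hx0 hxd hv0 ?_
  have hre : ∀ᶠ s in 𝓝 (0 : ℝ), 0 < (κ * F (γ s).1).re := by
    have h1 := dF.const_mul κ
    have h2 : ContinuousAt (fun s => (κ * F (γ s).1).re) 0 :=
      Complex.continuous_re.continuousAt.comp h1.continuousAt
    have h3 : 0 < (κ * F (γ 0).1).re := by rw [hκF]; simp
    exact h2.eventually (lt_mem_nhds h3)
  filter_upwards [hev, hre] with s h1 h2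
  obtain ⟨h1S, h1c⟩ := h1
  have hNs : (γ s).1 ∈ N := (hL.subTN h1S).1
  constructor
  · have e1 : ‖κ * F (γ s).1‖ = 1 := by rw [norm_mul, hκn, h.circ.unit _ hNs, one_mul]
    have e2 := cprof_exp e1 h2
    have e3 : F (c (x s).re) = F (γ s).1 := by
      rw [hc.lev, hxre, hT]
      show Complex.exp (((z₀.re + Real.arcsin (κ * F (γ s).1).im : ℝ) : ℂ) * Complex.I) = _
      rw [Complex.ofReal_add, add_mul, Complex.exp_add, e2, hκ, ← mul_assoc, ← Complex.exp_add,
        add_neg_cancel, Complex.exp_zero, one_mul]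
    have e4 : γ s = ((γ s).1, P s • V (γ s).1) := by
      refine Prod.ext rfl ?_
      rw [hP]
      exact cprof_form h hL hM h1S
    have e5 : ((γ s).1, P s • V (γ s).1) ∈ S := by rw [← e4]; exact h1S
    have e6 := (hs _ hNs _ (hc.mem (x s).re) e3 (P s) e5).1
    show (c (x s).re, (x s).im • V (c (x s).re)) ∈ S
    rw [hxim]
    exact e6
  · have c0 : ContinuousAt γ s := h1c.continuousAt
    have c1 : ContinuousAt (fun s => (κ * F (γ s).1).im) s := by
      have c2 : Continuous fun q => (κ * F q).im :=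
        Complex.continuous_im.comp (continuous_const.mul h.circ.smooth.continuous)
      exact c2.continuousAt.comp (continuous_fst.continuousAt.comp c0)
    have c3 : ContinuousAt T s := by
      rw [hT]
      exact continuousAt_const.add (Real.continuous_arcsin.continuousAt.comp c1)
    have c4 : ContinuousAt P s := by
      rw [hP]
      exact (continuous_snd.continuousAt.comp c0).inner
        (h.base.smooth.continuous.continuousAt.comp (continuous_fst.continuousAt.comp c0))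
    rw [hx]
    exact (Complex.continuous_ofReal.continuousAt.comp c3).add
      ((Complex.continuous_ofReal.continuousAt.comp c4).mul continuousAt_const)

private theorem cprof_per (hc : FL N F X c) (θ : ℝ) (k : ℤ) :
    F (c (θ + k * (2 * Real.pi))) = F (c θ) := by
  rw [hc.lev, hc.lev, Complex.exp_eq_exp_iff_exists_int]
  refine ⟨k, ?_⟩
  push_cast
  ring

/-- **The profile.** -/
theorem profC (h : CD n N Pr F V X R) (hL : ExactLag n N ⊥ S f) (hM : InM V S)
    (hs : SatS N F V S f) (hc : FL N F X c) :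
    PSetC {w | phC V c w ∈ S} fun w => f (phC V c w) := by
  have hsm := phC_smooth h hc
  have hper : ∀ z ∈ {w | phC V c w ∈ S}, ∀ k : ℤ, z + ((k * (2 * Real.pi) : ℝ) : ℂ) ∈
      {w | phC V c w ∈ S} ∧ f (phC V c (z + ((k * (2 * Real.pi) : ℝ) : ℂ))) = f (phC V c z) := by
    intro z hz k
    have h1 := hs _ (hc.mem z.re) _ (hc.mem (z.re + k * (2 * Real.pi))) (cprof_per hc z.re k)
      z.im hz
    have h2 : phC V c (z + ((k * (2 * Real.pi) : ℝ) : ℂ)) =
        (c (z.re + k * (2 * Real.pi)), z.im • V (c (z.re + k * (2 * Real.pi)))) := by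
      unfold phC
      rw [Complex.add_re, Complex.add_im, Complex.ofReal_re, Complex.ofReal_im, add_zero]
    have h3 : phC V c z = (c z.re, z.im • V (c z.re)) := rfl
    refine ⟨?_, ?_⟩
    · show phC V c (z + ((k * (2 * Real.pi) : ℝ) : ℂ)) ∈ S
      rw [h2]
      exact h1.1
    · rw [h2, h3]
      exact h1.2
  refine ⟨?_, ?_, ?_, ?_, ?_, ?_, ?_, ?_⟩
  · obtain ⟨y, hy⟩ := hL.ne
    obtain ⟨t, ht⟩ := hM y hy
    have hN : y.1 ∈ N := (hL.subTN hy).1
    obtain ⟨θ, hθ⟩ := h.arg hN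
    have h1 : F (c θ) = F y.1 := by rw [hc.lev, hθ]
    have h2 : (y.1, t • V y.1) ∈ S := by rw [← ht]; exact hy
    refine ⟨⟨θ, t⟩, ?_⟩
    exact (hs _ hN _ (hc.mem θ) h1 t h2).1
  · exact fun z hz => subAtC h hL hM hs hc hz
  · exact hL.closed.preimage hsm.continuous
  · intro z hz
    have h1 := (hper z hz 1).1
    rwa [Int.cast_one, one_mul] at h1
  · intro z hz
    have h1 := (hper z hz (-1)).1
    have h2 : ((((-1 : ℤ) : ℝ) * (2 * Real.pi) : ℝ) : ℂ) = -((2 * Real.pi : ℝ) : ℂ) := by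
      push_cast
      ring
    rw [h2, ← sub_eq_add_neg] at h1
    exact h1
  · obtain ⟨r, hr⟩ := hL.bdd
    obtain ⟨K, hK⟩ := h.base.bdd
    refine ⟨r * K, fun z hz => ?_⟩
    have h1 : z.im = ⟪(phC V c z).2, X (c z.re)⟫ := by
      show z.im = ⟪z.im • V (c z.re), X (c z.re)⟫
      rw [real_inner_smul_left, h.one _ (hc.mem _), mul_one]
    rw [h1]
    have h2 := abs_real_inner_le_norm (phC V c z).2 (X (c z.re))
    have h3 := hr _ hz
    have h4 := hK (c z.re)
    have h5 := norm_nonneg (phC V c z).2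
    have h6 := norm_nonneg (X (c z.re))
    have h7 : 0 ≤ r := h5.trans h3
    exact h2.trans (mul_le_mul h3 h4 h6 h7)
  · intro z hz
    have hT : Tendsto (phC V c) (𝓝[{w | phC V c w ∈ S}] z) (𝓝[S] (phC V c z)) :=
      tendsto_nhdsWithin_iff.2 ⟨hsm.continuous.continuousAt.mono_left nhdsWithin_le_nhds,
        eventually_nhdsWithin_of_forall fun y hy => hy⟩
    have o1 := (hL.prim (phC V c z) hz).comp_tendsto hT
    have o2 : (fun y => phC V c y - phC V c z) =O[𝓝[{w | phC V c w ∈ S}] z] fun y => y - z :=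
      ((hsm.differentiable (by simp) z).isBigO_sub).mono nhdsWithin_le_nhds
    have o3 : (fun y : ℂ => f (phC V c y) - f (phC V c z) -
        ⟪(phC V c z).2, (phC V c y).1 - (phC V c z).1⟫)
        =o[𝓝[{w | phC V c w ∈ S}] z] fun y => y - z := o1.trans_isBigO o2
    have hG : HasFDerivAt (fun y : ℂ => ⟪(phC V c z).2, c y.re⟫) (z.im • Complex.reCLM) z := by
      have h1 : HasFDerivAt (fun y : ℂ => y.re) Complex.reCLM z := Complex.reCLM.hasFDerivAt
      have h2 : HasDerivAt (fun t : ℝ => ⟪(phC V c z).2, c t⟫) ⟪(phC V c z).2, X (c z.re)⟫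
          z.re := (innerSL ℝ (phC V c z).2).hasFDerivAt.comp_hasDerivAt z.re (hc.der z.re)
      have h3 : ⟪(phC V c z).2, X (c z.re)⟫ = z.im := by
        show ⟪z.im • V (c z.re), X (c z.re)⟫ = z.im
        rw [real_inner_smul_left, h.one _ (hc.mem _), mul_one]
      rw [h3] at h2
      exact h2.comp_hasFDerivAt z h1
    have o4 : (fun y : ℂ => ⟪(phC V c z).2, c y.re⟫ - ⟪(phC V c z).2, c z.re⟫ -
        (z.im • Complex.reCLM) (y - z)) =o[𝓝[{w | phC V c w ∈ S}] z] fun y => y - z :=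
      hG.isLittleO.mono nhdsWithin_le_nhds
    refine (o3.add o4).congr_left fun y => ?_
    have h5 : ⟪(phC V c z).2, (phC V c y).1 - (phC V c z).1⟫ =
        ⟪(phC V c z).2, c y.re⟫ - ⟪(phC V c z).2, c z.re⟫ := by
      show ⟪(phC V c z).2, c y.re - c z.re⟫ = _
      rw [inner_sub_right]
    have h6 : (z.im • Complex.reCLM) (y - z) = z.im * (y.re - z.re) := by
      simp
    rw [h5, h6]
    ring
  · intro z hz
    have h1 := (hper z hz 1).2
    rwa [Int.cast_one, one_mul] at h1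

end Pool.Agent.H86.CQ
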