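import Pool.Agent.H86.CQ.CData
import Pool.Agent.H73.CO.LagT
import Pool.Agent.H2.TI.IXH
import Pool.Agent.H2.TI.IInv
import Pool.Agent.H2.TI.Main

/-!
# Saturation along the fibres

As the modules LvP, PshA, PshB, SatR of `H73/CO`: `lvC V X κ s z = ⟪p, κ'⟫ - ⟪κ', V q⟫ ⟪p, X q⟫`
vanishes on `{(q, t V q)}`, so its Hamiltonian vector field is tangent to `S`, and its flow moves
`(κ 0, t V (κ 0))` to `(κ 1, t V (κ 1))` if `κ` is a curve in a fibre of `F`.
-/

set_option autoImplicit false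

open scoped ContDiff Topology RealInnerProductSpace
open Set Filter

namespace Pool.Agent.H86.CQ

open Pool.Agent.H57.NL Pool.Agent.H2.TG Pool.Agent.H2.TI Pool.Agent.H73.CO

variable {m n : ℕ} {N : Set (E m)} {Pr : E m → (E m →L[ℝ] E m)} {F : E m → ℂ}
  {g V X : E m → E m} {R : ℝ → E m → E m} {S : Set (E m × E m)} {f : E m × E m → ℝ}

/-- retraction to the fibre of `q₀` -/
private noncomputable def cpr (R : ℝ → E m → E m) (F : E m → ℂ) (κ₀ : ℂ) (q : E m) : E m :=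
  R (-(Real.arcsin (κ₀ * F q).im)) q

private theorem cpsh_exp {w : ℂ} (h1 : ‖w‖ = 1) (h2 : 0 < w.re) :
    Complex.exp ((Real.arcsin w.im : ℂ) * Complex.I) = w := by
  have h3 : w.re ^ 2 + w.im ^ 2 = 1 := by
    have h4 := Complex.sq_norm w
    rw [h1, Complex.normSq_apply] at h4
    nlinarith
  have h5 : w.im ≤ 1 := by nlinarith
  have h6 : -1 ≤ w.im := by nlinarith
  rw [Complex.exp_mul_I, ← Complex.ofReal_cos, ← Complex.ofReal_sin, Real.sin_arcsin h6 h5,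
    Real.cos_arcsin]
  have h7 : √(1 - w.im ^ 2) = w.re := by
    rw [show 1 - w.im ^ 2 = w.re ^ 2 by linarith, Real.sqrt_sq h2.le]
  rw [h7, Complex.re_add_im]

private theorem cpsh_one (h : CD n N Pr F V X R) {q₀ : E m} (hq₀ : q₀ ∈ N) :
    F q₀ * (starRingEnd ℂ) (F q₀) = 1 := by
  rw [Complex.mul_conj, Complex.normSq_eq_norm_sq, h.circ.unit q₀ hq₀]
  norm_num

private theorem cpr_spec (h : CD n N Pr F V X R) {q₀ q : E m} (hq₀ : q₀ ∈ N) (hq : q ∈ N)
    (hr : 0 < ((starRingEnd ℂ) (F q₀) * F q).re) :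
    cpr R F ((starRingEnd ℂ) (F q₀)) q ∈ N ∧ F (cpr R F ((starRingEnd ℂ) (F q₀)) q) = F q₀ := by
  have h1 : ‖(starRingEnd ℂ) (F q₀) * F q‖ = 1 := by
    rw [norm_mul, RCLike.norm_conj, h.circ.unit q₀ hq₀, h.circ.unit q hq, one_mul]
  have h2 := cpsh_exp h1 hr
  have h0 := cpsh_one h hq₀
  refine ⟨h.base.maps q hq _, ?_⟩
  unfold cpr
  rw [h.lev hq]
  have h3 : F q = F q₀ * Complex.exp ((Real.arcsin ((starRingEnd ℂ) (F q₀) * F q).im : ℂ) *
      Complex.I) := by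
    rw [h2, ← mul_assoc, h0, one_mul]
  obtain ⟨α, hα⟩ : ∃ α : ℝ, α = Real.arcsin ((starRingEnd ℂ) (F q₀) * F q).im := ⟨_, rfl⟩
  rw [← hα] at h3 ⊢
  rw [h3, mul_left_comm, ← Complex.exp_add]
  have h4 : ((-α : ℝ) : ℂ) * Complex.I + (α : ℂ) * Complex.I = 0 := by
    push_cast
    ring
  rw [h4, Complex.exp_zero, mul_one]

private theorem cpr_self (h : CD n N Pr F V X R) {q₀ q : E m} (hq₀ : q₀ ∈ N)
    (hF : F q = F q₀) : cpr R F ((starRingEnd ℂ) (F q₀)) q = q := by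
  unfold cpr
  rw [hF, mul_comm, cpsh_one h hq₀]
  simp [h.base.flow.zero]

private theorem cpr_smooth (h : CD n N Pr F V X R) {q₀ q : E m} (hq₀ : q₀ ∈ N) (hq : q ∈ N)
    (hr : 0 < ((starRingEnd ℂ) (F q₀) * F q).re) :
    ContDiffAt ℝ ∞ (cpr R F ((starRingEnd ℂ) (F q₀))) q := by
  have h1 : ‖(starRingEnd ℂ) (F q₀) * F q‖ = 1 := by
    rw [norm_mul, RCLike.norm_conj, h.circ.unit q₀ hq₀, h.circ.unit q hq, one_mul]
  have h3 : ((starRingEnd ℂ) (F q₀) * F q).re ^ 2 + ((starRingEnd ℂ) (F q₀) * F q).im ^ 2 = 1 := by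
    have h4 := Complex.sq_norm ((starRingEnd ℂ) (F q₀) * F q)
    rw [h1, Complex.normSq_apply] at h4
    nlinarith
  have h5 : ((starRingEnd ℂ) (F q₀) * F q).im ≠ 1 := by
    intro h5
    rw [h5] at h3
    nlinarith
  have h6 : ((starRingEnd ℂ) (F q₀) * F q).im ≠ -1 := by
    intro h5
    rw [h5] at h3
    nlinarith
  have hF : ContDiff ℝ ∞ fun q => ((starRingEnd ℂ) (F q₀) * F q).im :=
    Complex.imCLM.contDiff.comp (contDiff_const.mul h.circ.smooth)
  have h7 : ContDiffAt ℝ ∞ (fun q => -(Real.arcsin ((starRingEnd ℂ) (F q₀) * F q).im)) q :=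
    ((Real.contDiffAt_arcsin h6 h5).comp q hF.contDiffAt).neg
  have h8 : ContDiffAt ℝ ∞ (fun q => (-(Real.arcsin ((starRingEnd ℂ) (F q₀) * F q).im), q)) q :=
    h7.prodMk contDiffAt_id
  exact ContDiffAt.comp (g := fun y : ℝ × E m => R y.1 y.2) q h.base.flow.smooth.contDiffAt h8

theorem lev_pathC (h : CD n N Pr F V X R) {q₀ : E m} (hq₀ : q₀ ∈ N) :
    ∀ᶠ q in 𝓝 q₀, q ∈ N → F q = F q₀ → ∃ κ : ℝ → E m, ContDiff ℝ ∞ κ ∧ (∀ s, κ s ∈ N) ∧
      (∀ s, F (κ s) = F q₀) ∧ (∀ s ≤ 0, κ s = q₀) ∧ ∀ s, 1 ≤ s → κ s = q := by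
  obtain ⟨e, A, he, hsl⟩ := h.mfd.sub.slice hq₀
  have hcF : Continuous fun y => ((starRingEnd ℂ) (F q₀) * F y).re :=
    Complex.continuous_re.comp (continuous_const.mul h.circ.smooth.continuous)
  have hO : IsOpen (e.target ∩ e.symm ⁻¹' {y | 0 < ((starRingEnd ℂ) (F q₀) * F y).re}) :=
    e.symm.isOpen_inter_preimage (isOpen_lt continuous_const hcF)
  have hmem0 : e q₀ ∈ e.target ∩ e.symm ⁻¹' {y | 0 < ((starRingEnd ℂ) (F q₀) * F y).re} := by
    refine ⟨e.map_source he, ?_⟩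
    show 0 < ((starRingEnd ℂ) (F q₀) * F (e.symm (e q₀))).re
    rw [e.left_inv he, mul_comm, cpsh_one h hq₀]
    exact one_pos
  obtain ⟨δ, hδ, hball⟩ := Metric.isOpen_iff.1 hO _ hmem0
  have hev1 : ∀ᶠ q in 𝓝 q₀, q ∈ e.source := e.open_source.mem_nhds he
  have hev2 : ∀ᶠ q in 𝓝 q₀, e q ∈ Metric.ball (e q₀) δ :=
    (e.continuousAt he).eventually (Metric.ball_mem_nhds _ hδ)
  filter_upwards [hev1, hev2] with q hq1 hq2 hqN hqF
  set ζ : ℝ → ℝ := Real.smoothTransition with hζ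
  have hζs : ContDiff ℝ ∞ ζ := Real.smoothTransition.contDiff
  set y : ℝ → E m := fun s => e q₀ + ζ s • (e q - e q₀) with hy
  have hys : ContDiff ℝ ∞ y := contDiff_const.add (hζs.smul contDiff_const)
  have hyb : ∀ s, y s ∈ Metric.ball (e q₀) δ := by
    intro s
    rw [Metric.mem_ball, dist_eq_norm] at hq2 ⊢
    have h0 : 0 ≤ ζ s := Real.smoothTransition.nonneg s
    have h1 : ζ s ≤ 1 := Real.smoothTransition.le_one s
    have h2 : y s - e q₀ = ζ s • (e q - e q₀) := add_sub_cancel_left _ _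
    rw [h2, norm_smul, Real.norm_eq_abs, abs_of_nonneg h0]
    have h3 := norm_nonneg (e q - e q₀)
    nlinarith
  have hyt : ∀ s, y s ∈ e.target := fun s => (hball (hyb s)).1
  have hyF : ∀ s, 0 < ((starRingEnd ℂ) (F q₀) * F (e.symm (y s))).re := fun s => (hball (hyb s)).2
  have hyA : ∀ s, y s ∈ A := by
    intro s
    have h1 : e q₀ ∈ A := (hsl.iff q₀ he).1 hq₀
    have h2 : e q ∈ A := (hsl.iff q hq1).1 hqN
    exact A.add_mem h1 (A.smul_mem _ (A.sub_mem h2 h1))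
  have hyN : ∀ s, e.symm (y s) ∈ N := by
    intro s
    rw [hsl.iff _ (e.map_target (hyt s)), e.right_inv (hyt s)]
    exact hyA s
  refine ⟨fun s => cpr R F ((starRingEnd ℂ) (F q₀)) (e.symm (y s)), ?_, ?_, ?_, ?_, ?_⟩
  · rw [contDiff_iff_contDiffAt]
    intro s
    have h1 : ContDiffAt ℝ ∞ e.symm (y s) := hsl.s2.contDiffAt (e.open_target.mem_nhds (hyt s))
    have h2 : ContDiffAt ℝ ∞ (fun s => e.symm (y s)) s := h1.comp s hys.contDiffAt
    exact ContDiffAt.comp (g := cpr R F ((starRingEnd ℂ) (F q₀))) s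
      (cpr_smooth h hq₀ (hyN s) (hyF s)) h2
  · exact fun s => (cpr_spec h hq₀ (hyN s) (hyF s)).1
  · exact fun s => (cpr_spec h hq₀ (hyN s) (hyF s)).2
  · intro s hs
    have h1 : y s = e q₀ := by
      simp only [hy, hζ, Real.smoothTransition.zero_of_nonpos hs, zero_smul, add_zero]
    show cpr R F ((starRingEnd ℂ) (F q₀)) (e.symm (y s)) = q₀
    rw [h1, e.left_inv he]
    exact cpr_self h hq₀ rfl
  · intro s hs
    have h1 : y s = e q := by
      simp only [hy, hζ, Real.smoothTransition.one_of_one_le hs, one_smul, add_sub_cancel]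
    show cpr R F ((starRingEnd ℂ) (F q₀)) (e.symm (y s)) = q
    rw [h1, e.left_inv hq1]
    exact cpr_self h hq₀ hqF

/-- the Hamiltonian -/
noncomputable def lvC (V X : E m → E m) (κ : ℝ → E m) (s : ℝ) (z : E m × E m) : ℝ :=
  ⟪z.2, deriv κ s⟫ - ⟪deriv κ s, V z.1⟫ * ⟪z.2, X z.1⟫

theorem lvC_smooth (h : CD n N Pr F V X R) {κ : ℝ → E m} (hκ : ContDiff ℝ ∞ κ) :
    ContDiff ℝ ∞ fun x : ℝ × (E m × E m) => lvC V X κ x.1 x.2 := by
  have hd : ContDiff ℝ ∞ (deriv κ) := (contDiff_infty_iff_deriv.1 hκ).2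
  have h1 : ContDiff ℝ ∞ fun x : ℝ × (E m × E m) => deriv κ x.1 := hd.comp contDiff_fst
  have h2 : ContDiff ℝ ∞ fun x : ℝ × (E m × E m) => V x.2.1 :=
    h.smooth.comp (contDiff_fst.comp contDiff_snd)
  have h4 : ContDiff ℝ ∞ fun x : ℝ × (E m × E m) => X x.2.1 :=
    h.base.smooth.comp (contDiff_fst.comp contDiff_snd)
  have h3 : ContDiff ℝ ∞ fun x : ℝ × (E m × E m) => x.2.2 := contDiff_snd.comp contDiff_snd
  exact (h3.inner ℝ h1).sub ((h1.inner ℝ h2).mul (h3.inner ℝ h4))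

private lemma cpsh_smooth (h : CD n N Pr F V X R) {κ : ℝ → E m} (hκ : ContDiff ℝ ∞ κ) (s : ℝ) :
    ContDiff ℝ ∞ (lvC V X κ s) := by
  have h1 : ContDiff ℝ ∞ fun z : E m × E m => ((s, z) : ℝ × (E m × E m)) :=
    contDiff_const.prodMk contDiff_id
  have h2 := (lvC_smooth h hκ).comp h1
  have h3 : ((fun x : ℝ × (E m × E m) => lvC V X κ x.1 x.2) ∘
      fun z : E m × E m => ((s, z) : ℝ × (E m × E m))) = fun z => lvC V X κ s z := rfl
  rw [h3] at h2
  exact h2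

theorem lvC_M (h : CD n N Pr F V X R) (κ : ℝ → E m) (s : ℝ) {z : E m × E m} (hN : z.1 ∈ N)
    (hz : ∃ t : ℝ, z.2 = t • V z.1) : lvC V X κ s z = 0 := by
  obtain ⟨t, ht⟩ := hz
  unfold lvC
  rw [ht, real_inner_smul_left, real_inner_smul_left, h.one _ hN,
    real_inner_comm (deriv κ s) (V z.1)]
  ring

theorem lvC_tan (h : CD n N Pr F V X R) (hL : ExactLag n N ⊥ S f) (hM : InM V S)
    {κ : ℝ → E m} (hκ : ContDiff ℝ ∞ κ) (s : ℝ) {z : E m × E m} (hz : z ∈ S) :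
    XH Pr (lvC V X κ s) z ∈ Tan S z := by
  have hzT : z ∈ TN N := hL.subTN hz
  refine lag_tan h.mfd.sub h.proj hL hz (xh_tan h.mfd.sub h.proj _ hzT) fun v hv => ?_
  obtain ⟨γ, h0, hγ, hd⟩ := hv
  have hvT : v ∈ Tan (TN N) z := ⟨γ, h0, hγ.mono fun s hs => hL.subTN hs, hd⟩
  rw [xh_om h.mfd.sub h.proj _ hzT hvT]
  have h1 : HasFDerivAt (lvC V X κ s) (fderiv ℝ (lvC V X κ s) z) (γ 0) := by
    rw [h0]
    exact ((cpsh_smooth h hκ s).differentiable (by simp) _).hasFDerivAt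
  have h2 := h1.comp_hasDerivAt (0 : ℝ) hd
  have h3 : (lvC V X κ s ∘ γ) =ᶠ[𝓝 0] fun _ => 0 := by
    filter_upwards [hγ] with t ht
    exact lvC_M h κ s (hL.subTN ht).1 (hM _ ht)
  have h4 : fderiv ℝ (lvC V X κ s) z v = 0 :=
    (h2.congr_of_eventuallyEq h3.symm).unique (hasDerivAt_const (0 : ℝ) (0 : ℝ))
  rw [h4, neg_zero]

/-- the derivative of `lvC` -/
private lemma cpsh_fderiv (h : CD n N Pr F V X R) {κ : ℝ → E m} (hκ : ContDiff ℝ ∞ κ) (s : ℝ)
    (q p u w : E m) : fderiv ℝ (lvC V X κ s) (q, p) (u, w) =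
      ⟪w, deriv κ s⟫ - (⟪deriv κ s, fderiv ℝ V q u⟫ * ⟪p, X q⟫ +
          ⟪deriv κ s, V q⟫ * (⟪p, fderiv ℝ X q u⟫ + ⟪w, X q⟫)) := by
  have l1 : HasDerivAt (fun τ : ℝ => q + τ • u) u 0 := by
    have := ((hasDerivAt_id (0 : ℝ)).smul_const u).const_add q
    rwa [one_smul] at this
  have l2 : HasDerivAt (fun τ : ℝ => p + τ • w) w 0 := by
    have := ((hasDerivAt_id (0 : ℝ)).smul_const w).const_add p
    rwa [one_smul] at this
  have e0 : q + (0 : ℝ) • u = q := by rw [zero_smul, add_zero]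
  have e1 : p + (0 : ℝ) • w = p := by rw [zero_smul, add_zero]
  have lV : HasDerivAt (fun τ : ℝ => V (q + τ • u)) (fderiv ℝ V q u) 0 := by
    have hg : HasFDerivAt V (fderiv ℝ V q) (q + (0 : ℝ) • u) := by
      rw [e0]
      exact (h.smooth.differentiable (by simp) _).hasFDerivAt
    exact hg.comp_hasDerivAt (0 : ℝ) l1
  have lX : HasDerivAt (fun τ : ℝ => X (q + τ • u)) (fderiv ℝ X q u) 0 := by
    have hg : HasFDerivAt X (fderiv ℝ X q) (q + (0 : ℝ) • u) := by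
      rw [e0]
      exact (h.base.smooth.differentiable (by simp) _).hasFDerivAt
    exact hg.comp_hasDerivAt (0 : ℝ) l1
  have hK : HasFDerivAt (lvC V X κ s) (fderiv ℝ (lvC V X κ s) (q, p))
      (q + (0 : ℝ) • u, p + (0 : ℝ) • w) := by
    rw [e0, e1]
    exact ((cpsh_smooth h hκ s).differentiable (by simp) _).hasFDerivAt
  have d1 := hK.comp_hasDerivAt (0 : ℝ) (l1.prodMk l2)
  have d2 : HasDerivAt (fun τ : ℝ => ⟪p + τ • w, deriv κ s⟫ -
      ⟪deriv κ s, V (q + τ • u)⟫ * ⟪p + τ • w, X (q + τ • u)⟫) _ 0 :=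
    (l2.inner ℝ (hasDerivAt_const (0 : ℝ) (deriv κ s))).sub
      (((hasDerivAt_const (0 : ℝ) (deriv κ s)).inner ℝ lV).mul (l2.inner ℝ lX))
  have d3 := d1.unique d2
  rw [d3, e0, e1]
  simp only [inner_zero_right, inner_zero_left, add_zero, zero_add]

/-- curves in a fibre are orthogonal to the gradient -/
private theorem cpsh_orth (h : CD n N Pr F V X R) {κ : ℝ → E m} {a : ℂ}
    (hκ : ContDiff ℝ ∞ κ) (hκN : ∀ s, κ s ∈ N) (hκF : ∀ s, F (κ s) = a) (s : ℝ) :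
    ⟪V (κ s), deriv κ s⟫ = 0 := by
  have hκd : ∀ s, HasDerivAt κ (deriv κ s) s := fun s =>
    (hκ.differentiable (by simp) s).hasDerivAt
  have hkT : deriv κ s ∈ Tan N (κ s) := by
    refine ⟨fun r => κ (s + r), by simp, Eventually.of_forall fun r => hκN _, ?_⟩
    have h1 := (hκd (s + 0)).comp_const_add s 0
    rwa [add_zero] at h1
  have h1 : HasDerivAt (fun s => F (κ s)) (fderiv ℝ F (κ s) (deriv κ s)) s :=
    (h.circ.smooth.differentiable (by simp) (κ s)).hasFDerivAt.comp_hasDerivAt s (hκd s)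
  have h2 : (fun s => F (κ s)) = fun _ => a := funext hκF
  rw [h2] at h1
  have h3 := h1.unique (hasDerivAt_const s a)
  rw [h.circ.dF (hκN s) hkT] at h3
  rcases smul_eq_zero.1 h3 with h4 | h4
  · exact h4
  · exfalso
    have h5 := h.circ.unit _ (hκN s)
    have h6 : ‖Complex.I * F (κ s)‖ = 1 := by rw [norm_mul, Complex.norm_I, h5, one_mul]
    rw [h4, norm_zero] at h6
    exact zero_ne_one h6

theorem lvC_curve (h : CD n N Pr F V X R) {a : ℂ} {κ : ℝ → E m}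
    (hκ : ContDiff ℝ ∞ κ) (hκN : ∀ s, κ s ∈ N) (hκF : ∀ s, F (κ s) = a) (t s : ℝ) :
    HasDerivAt (fun s => (κ s, t • V (κ s))) (XH Pr (lvC V X κ s) (κ s, t • V (κ s))) s := by
  have hκd : ∀ s, HasDerivAt κ (deriv κ s) s := fun s =>
    (hκ.differentiable (by simp) s).hasDerivAt
  have hgd : ∀ s, HasDerivAt (fun s => V (κ s)) (fderiv ℝ V (κ s) (deriv κ s)) s := fun s =>
    (h.smooth.differentiable (by simp) (κ s)).hasFDerivAt.comp_hasDerivAt s (hκd s)
  have hzd : HasDerivAt (fun s => (κ s, t • V (κ s)))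
      (deriv κ s, t • fderiv ℝ V (κ s) (deriv κ s)) s := (hκd s).prodMk ((hgd s).const_smul t)
  have hzN : ∀ s, (κ s, t • V (κ s)) ∈ TN N := fun s =>
    ⟨hκN s, Tan.smul (h.circ.tan _ (hκN s)) t⟩
  have hkT : deriv κ s ∈ Tan N (κ s) := by
    refine ⟨fun r => κ (s + r), by simp, Eventually.of_forall fun r => hκN _, ?_⟩
    have h1 := (hκd (s + 0)).comp_const_add s 0
    rwa [add_zero] at h1
  have hzT : (deriv κ s, t • fderiv ℝ V (κ s) (deriv κ s)) ∈ Tan (TN N) (κ s, t • V (κ s)) := by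
    refine ⟨fun r => (κ (s + r), t • V (κ (s + r))), by simp,
      Eventually.of_forall fun r => hzN _, ?_⟩
    have hz0 : HasDerivAt (fun s => (κ s, t • V (κ s)))
        (deriv κ s, t • fderiv ℝ V (κ s) (deriv κ s)) (s + 0) := by rw [add_zero]; exact hzd
    exact hz0.comp_const_add s 0
  have horth : ⟪deriv κ s, V (κ s)⟫ = 0 := by
    rw [real_inner_comm]
    exact cpsh_orth h hκ hκN hκF s
  have hX := xh_tan h.mfd.sub h.proj (lvC V X κ s) (hzN s)
  have heq : (deriv κ s, t • fderiv ℝ V (κ s) (deriv κ s)) -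
      XH Pr (lvC V X κ s) (κ s, t • V (κ s)) = 0 := by
    refine om_nondeg h.mfd.sub h.proj (hzN s)
      ((TN_submfd h.mfd.sub).tan_sub (hzN s) hzT hX) fun v hv => ?_
    have q2 := xh_om h.mfd.sub h.proj (lvC V X κ s) (hzN s) hv
    obtain ⟨u, w⟩ := v
    have hu : u ∈ Tan N (κ s) := tan_fst hv
    have hsym := h.symm (hκN s) hkT hu
    rw [cpsh_fderiv h hκ] at q2
    have e2 : ⟪t • V (κ s), X (κ s)⟫ = t := by
      rw [real_inner_smul_left, h.one _ (hκN s), mul_one]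
    rw [e2, horth] at q2
    unfold om at q2 ⊢
    simp only [Prod.fst_sub, Prod.snd_sub, inner_sub_left, inner_sub_right]
    simp only at q2
    rw [real_inner_smul_left, hsym, real_inner_comm (fderiv ℝ V (κ s) u) (deriv κ s)] at *
    linarith
  rw [← sub_eq_zero.1 heq]
  exact hzd

private lemma cpsh_zero {κ : ℝ → E m} {s : ℝ} (hs : deriv κ s = 0) (z : E m × E m) :
    XH Pr (lvC V X κ s) z = 0 := by
  apply xh_zero
  have h1 : lvC V X κ s = fun _ => 0 := by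
    funext z
    unfold lvC
    rw [hs]
    simp
  rw [h1]
  simp

theorem lev_pushC (h : CD n N Pr F V X R) (hL : ExactLag n N ⊥ S f) (hM : InM V S) {a : ℂ}
    {κ : ℝ → E m} (hκ : ContDiff ℝ ∞ κ) (hκN : ∀ s, κ s ∈ N)
    (hκF : ∀ s, F (κ s) = a) (hc0 : ∀ s ≤ 0, κ s = κ 0) (hc1 : ∀ s, 1 ≤ s → κ s = κ 1) {t : ℝ}
    (h0 : (κ 0, t • V (κ 0)) ∈ S) :
    (κ 1, t • V (κ 1)) ∈ S ∧ f (κ 1, t • V (κ 1)) = f (κ 0, t • V (κ 0)) := by
  set z : ℝ → E m × E m := fun s => (κ s, t • V (κ s)) with hz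
  have hzd : ∀ s, HasDerivAt z (XH Pr (lvC V X κ s) (z s)) s := fun s =>
    lvC_curve h hκ hκN hκF t s
  have hzc : Continuous z := continuous_iff_continuousAt.2 fun s => (hzd s).continuousAt
  -- the curve is bounded
  obtain ⟨r0, hr0⟩ : ∃ r : ℝ, ∀ s ∈ Icc (0 : ℝ) 1, ‖z s‖ ≤ r :=
    isCompact_Icc.exists_bound_of_continuousOn hzc.continuousOn
  have hr0' : ∀ s, ‖z s‖ ≤ r0 := by
    intro s
    rcases le_total s 0 with hs | hs
    · have : z s = z 0 := by simp only [hz]; rw [hc0 s hs]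
      rw [this]
      exact hr0 0 ⟨le_rfl, zero_le_one⟩
    · rcases le_total s 1 with hs1 | hs1
      · exact hr0 s ⟨hs, hs1⟩
      · have : z s = z 1 := by simp only [hz]; rw [hc1 s hs1]
        rw [this]
        exact hr0 1 ⟨zero_le_one, le_rfl⟩
  have hr0n : 0 ≤ r0 := (norm_nonneg _).trans (hr0' 0)
  let χ : ContDiffBump (0 : E m × E m) := ⟨r0 + 1, r0 + 2, by linarith, by linarith⟩
  have hχ1 : ∀ s, χ (z s) = 1 := by
    intro s
    apply χ.one_of_mem_closedBall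
    rw [mem_closedBall_zero_iff]
    have : χ.rIn = r0 + 1 := rfl
    rw [this]
    linarith [hr0' s]
  have hχ0 : ∀ y : E m × E m, r0 + 2 ≤ ‖y‖ → χ y = 0 := by
    intro y hy
    apply χ.zero_of_le_dist
    rw [dist_zero_right]
    exact hy
  have hd0 : ∀ s, s ∉ Icc (0 : ℝ) 1 → deriv κ s = 0 := by
    intro s hs
    rw [mem_Icc, not_and_or, not_le, not_le] at hs
    rcases hs with hs | hs
    · have : κ =ᶠ[𝓝 s] fun _ => κ 0 := by
        filter_upwards [Iio_mem_nhds hs] with u hu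
        exact hc0 u (le_of_lt hu)
      rw [this.deriv_eq]
      simp
    · have : κ =ᶠ[𝓝 s] fun _ => κ 1 := by
        filter_upwards [Ioi_mem_nhds hs] with u hu
        exact hc1 u (le_of_lt hu)
      rw [this.deriv_eq]
      simp
  let Y : ℝ × (E m × E m) → E m × E m := fun x => χ x.2 • XH Pr (lvC V X κ x.1) x.2
  have hYs0 : ContDiff ℝ ∞ Y :=
    ContDiff.smul (χ.contDiff.comp contDiff_snd) (xh_smooth h.proj (lvC_smooth h hκ))
  obtain ⟨K0, hK0⟩ : ∃ K0 : ℝ, ∀ x ∈ Icc (0 : ℝ) 1 ×ˢ Metric.closedBall (0 : E m × E m) (r0 + 2),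
      ‖Y x‖ ≤ K0 :=
    (isCompact_Icc.prod (isCompact_closedBall _ _)).exists_bound_of_continuousOn
      hYs0.continuous.continuousOn
  have hK0n : 0 ≤ K0 := (norm_nonneg _).trans
    (hK0 (0, 0) ⟨⟨le_rfl, zero_le_one⟩, by simp; linarith⟩)
  have hYb : ∀ x, ‖Y x‖ ≤ K0 := by
    intro x
    by_cases h1 : x.1 ∈ Icc (0 : ℝ) 1
    · by_cases h2 : ‖x.2‖ ≤ r0 + 2
      · exact hK0 x ⟨h1, by rw [mem_closedBall_zero_iff]; exact h2⟩
      · have : Y x = 0 := by
          simp only [Y]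
          rw [hχ0 _ (not_le.1 h2).le, zero_smul]
        rw [this, norm_zero]
        exact hK0n
    · have : Y x = 0 := by
        simp only [Y]
        rw [cpsh_zero (hd0 _ h1), smul_zero]
      rw [this, norm_zero]
      exact hK0n
  have hYs : ContDiff ℝ ∞ (fun y : ℝ × (E m × E m) => ((1 : ℝ), Y y)) :=
    contDiff_const.prodMk hYs0
  obtain ⟨Φ, hΦ⟩ := exists_isFlow hYs (K := max 1 K0) fun x => by
    rw [Prod.norm_def]
    exact max_le_max (by simp) (hYb x)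
  have hmaps := tflow_maps hL.sub hL.closed hYs0 hΦ
    (fun s y hy => Tan.smul (lvC_tan h hL hM hκ s hy) (χ y))
  have hcur : ∀ s, HasDerivAt (fun s => ((s, z s) : ℝ × (E m × E m)))
      ((1 : ℝ), Y (s, z s)) s := by
    intro s
    have h1 : Y (s, z s) = XH Pr (lvC V X κ s) (z s) := by
      simp only [Y]
      rw [hχ1, one_smul]
    rw [h1]
    exact (hasDerivAt_id s).prodMk (hzd s)
  have hzS : ∀ s, z s ∈ S := by
    intro s
    have h1 := hΦ.unique hYs (γ := fun s => ((s, z s) : ℝ × (E m × E m))) hcur s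
    have h2 := hmaps s 0 h0
    have h3 : z s = (Φ s (0, z 0)).2 := by
      have := congrArg Prod.snd h1
      exact this
    rw [h3]
    exact h2
  -- the primitive
  have hfd : ∀ s, HasDerivAt (fun s => f (z s)) 0 s := by
    intro s
    have hp := hL.prim (z s) (hzS s)
    have htend : Tendsto z (𝓝 s) (𝓝[S] (z s)) :=
      tendsto_nhdsWithin_iff.2 ⟨hzc.continuousAt, Eventually.of_forall hzS⟩
    have h1 := hp.comp_tendsto htend
    have h2 : (fun u => z u - z s) =O[𝓝 s] fun u => u - s := (hzd s).isBigO_sub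
    have h3 := h1.trans_isBigO h2
    have hκd : HasDerivAt κ (deriv κ s) s := (hκ.differentiable (by simp) s).hasDerivAt
    have h4 : HasDerivAt (fun u => ⟪(z s).2, κ u - κ s⟫) 0 s := by
      have h5 := (hasDerivAt_const s (z s).2).inner ℝ (hκd.sub_const (κ s))
      have h6 : ⟪(z s).2, deriv κ s⟫ = 0 := by
        change ⟪t • V (κ s), deriv κ s⟫ = 0
        rw [real_inner_smul_left, cpsh_orth h hκ hκN hκF s, mul_zero]
      rw [h6, inner_zero_left, add_zero] at h5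
      exact h5
    have h7 := hasDerivAt_iff_isLittleO.1 h4
    refine hasDerivAt_iff_isLittleO.2 ((h3.add h7).congr_left fun u => ?_)
    simp only [Function.comp, smul_zero, sub_self, inner_zero_right, sub_zero]
    simp only [hz]
    ring
  refine ⟨hzS 1, ?_⟩
  exact is_const_of_deriv_eq_zero (fun s => (hfd s).differentiableAt) (fun s => (hfd s).deriv) 1 0

/-- **Saturation.** -/
theorem satC (h : CD n N Pr F V X R) (hconn : ∀ a : ℂ, IsPreconnected {q | q ∈ N ∧ F q = a})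
    (hL : ExactLag n N ⊥ S f) (hM : InM V S) : SatS N F V S f := by
  intro q hq q' hq' hF t hz
  refine (hconn (F q)).induction₂' (fun x y => (x, t • V x) ∈ S →
    (y, t • V y) ∈ S ∧ f (y, t • V y) = f (x, t • V x)) ?_ ?_ ⟨hq, rfl⟩ ⟨hq', hF⟩ hz
  · rintro x ⟨hxN, hxF⟩
    have h1 := lev_pathC h hxN
    filter_upwards [nhdsWithin_le_nhds h1, self_mem_nhdsWithin] with y hy hyΛ
    obtain ⟨κ, k1, k2, k3, k4, k5⟩ := hy hyΛ.1 (hyΛ.2.trans hxF.symm)
    have e0 : κ 0 = x := k4 0 le_rfl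
    have e1 : κ 1 = y := k5 1 le_rfl
    constructor
    · intro hx
      have h2 := lev_pushC h hL hM k1 k2 k3 (fun s hs => by rw [k4 s hs, e0])
        (fun s hs => by rw [k5 s hs, e1]) (t := t) (by rw [e0]; exact hx)
      rwa [e0, e1] at h2
    · intro hy2
      have h3 : ContDiff ℝ ∞ fun s : ℝ => κ (1 - s) :=
        k1.comp (contDiff_const.sub contDiff_id)
      have h2 := lev_pushC h hL hM h3 (fun s => k2 (1 - s)) (fun s => k3 (1 - s))
        (fun s hs => by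
          show κ (1 - s) = κ (1 - 0)
          rw [k5 (1 - s) (by linarith), sub_zero, e1])
        (fun s hs => by
          show κ (1 - s) = κ (1 - 1)
          rw [k4 (1 - s) (by linarith), sub_self, e0]) (t := t)
        (by
          show (κ (1 - 0), t • V (κ (1 - 0))) ∈ S
          rw [sub_zero, e1]
          exact hy2)
      simp only [sub_zero, sub_self, e0, e1] at h2
      exact h2
  · intro x y z _ _ _ hxy hyz hx
    obtain ⟨h1, h2⟩ := hxy hx
    obtain ⟨h3, h4⟩ := hyz h1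
    exact ⟨h3, h4.trans h2⟩

end Pool.Agent.H86.CQ
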