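import Pool.Agent.H73.CO.GTan
import Pool.Agent.H73.CO.GMom
import Pool.Agent.H73.CO.Red
import Pool.Agent.H2.TI.IMain
import Pool.Agent.H2.TI.NBase

/-!
# Invariant exact Lagrangians, the orbit space being a circle

`F : N → S¹ ⊂ ℂ` is a submersion, `F = exp (i θ)`, `g = grad θ ≠ 0`; `G` is a closed group of linear isometries
whose orbits in `N` are the fibres of `F`. A closed exact Lagrangian `S` which is invariant under `G`
is contained in `{(q, t g(q))}` (moment map), so it is embedded by `(q, p) ↦ (q, ⟨p, g(q)⟩)` and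
`iso_main` applies.
-/

set_option autoImplicit false

open scoped ContDiff Topology RealInnerProductSpace
open Set Filter

namespace Pool.Agent.H86.CQ

open Pool.Agent.H57.NL Pool.Agent.H2.TG Pool.Agent.H2.TI Pool.Agent.H73.CO

variable {m n : ℕ} {N : Set (E m)} {F : E m → ℂ} {g : E m → E m} {S : Set (E m × E m)}
  {f : E m × E m → ℝ}

/-- `F = exp (i θ)` maps `N` to the unit circle, and `g = grad θ` has no zero on `N`. -/
structure CircleMap (N : Set (E m)) (F : E m → ℂ) (g : E m → E m) : Prop where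
  smooth : ContDiff ℝ ∞ F
  unit : ∀ q ∈ N, ‖F q‖ = 1
  tan : ∀ q ∈ N, g q ∈ Tan N q
  ne : ∀ q ∈ N, g q ≠ 0
  grad : ∀ q ∈ N, (fun y => F y - F q - ⟪g q, y - q⟫ • (Complex.I * F q)) =o[𝓝[N] q]
    fun y => y - q

/-- derivative of `F` along tangent vectors -/
theorem CircleMap.dF (h : CircleMap N F g) {q v : E m} (hq : q ∈ N) (hv : v ∈ Tan N q) :
    fderiv ℝ F q v = ⟪g q, v⟫ • (Complex.I * F q) := by
  obtain ⟨γ, h0, hS, hd⟩ := hv
  subst h0
  have H1 : HasDerivAt (fun s => F (γ s)) (fderiv ℝ F (γ 0) v) 0 :=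
    ((h.smooth.differentiable (by simp) (γ 0)).hasFDerivAt).comp_hasDerivAt (0 : ℝ) hd
  have hT : Tendsto γ (𝓝 0) (𝓝[N] (γ 0)) := tendsto_nhdsWithin_iff.2 ⟨hd.continuousAt, hS⟩
  have o1 : (fun s => F (γ s) - F (γ 0) - ⟪g (γ 0), γ s - γ 0⟫ • (Complex.I * F (γ 0))) =o[𝓝 0]
      fun s => γ s - γ 0 := (h.grad (γ 0) hq).comp_tendsto hT
  have o2 : (fun s => γ s - γ 0) =O[𝓝 0] fun s : ℝ => s - 0 := hd.hasFDerivAt.isBigO_sub
  have o3 := o1.trans_isBigO o2
  have h3 : HasDerivAt (fun s => F (γ s) - ⟪g (γ 0), γ s - γ 0⟫ • (Complex.I * F (γ 0))) 0 0 := by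
    rw [hasDerivAt_iff_isLittleO]
    refine o3.congr_left fun s => ?_
    simp only [sub_self, inner_zero_right, sub_zero, smul_zero, zero_smul]
    ring
  have h4 : HasDerivAt (fun s => ⟪g (γ 0), γ s - γ 0⟫) ⟪g (γ 0), v⟫ 0 := by
    exact (innerSL ℝ (g (γ 0))).hasFDerivAt.comp_hasDerivAt (0 : ℝ) (hd.sub_const (γ 0))
  have h5 := h4.smul_const (Complex.I * F (γ 0))
  have h6 := h3.add h5
  have H2 : HasDerivAt (fun s => F (γ s)) (⟪g (γ 0), v⟫ • (Complex.I * F (γ 0))) 0 := by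
    rw [zero_add] at h6
    refine h6.congr_of_eventuallyEq (Eventually.of_forall fun s => ?_)
    simp only [Pi.add_apply]
    ring
  exact H1.unique H2

/-- the linear form `Im (conj (F q) dF(q))` -/
noncomputable def lf (F : E m → ℂ) (q : E m) : E m →L[ℝ] ℝ :=
  Complex.imCLM.comp (((starRingEnd ℂ) (F q)) • fderiv ℝ F q)

theorem lf_apply (F : E m → ℂ) (q v : E m) :
    lf F q v = ((starRingEnd ℂ) (F q) * fderiv ℝ F q v).im := rfl

theorem lf_tan (h : CircleMap N F g) {q v : E m} (hq : q ∈ N) (hv : v ∈ Tan N q) :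
    lf F q v = ⟪g q, v⟫ := by
  rw [lf_apply, h.dF hq hv]
  have h1 : (starRingEnd ℂ) (F q) * F q = 1 := by
    rw [← Complex.normSq_eq_conj_mul_self, Complex.normSq_eq_norm_sq, h.unit q hq]
    norm_num
  have h2 : (starRingEnd ℂ) (F q) * (⟪g q, v⟫ • (Complex.I * F q)) = ⟪g q, v⟫ • Complex.I := by
    rw [mul_smul_comm, mul_left_comm, h1, mul_one]
  rw [h2]
  simp

private theorem Circ_vec : ContDiff ℝ ∞ (fun l : E m →L[ℝ] ℝ => vec l) := by
  apply IsBoundedLinearMap.contDiff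
  exact
    { map_add := fun x y => map_add _ x y
      map_smul := fun c x => by
        show (InnerProductSpace.toDual ℝ (E m)).symm (c • x) = _
        rw [map_smulₛₗ]
        rfl
      bound := ⟨1, one_pos, fun x => by
        rw [one_mul]
        exact le_of_eq (LinearIsometryEquiv.norm_map _ _)⟩ }

private theorem Circ_lf (h : ContDiff ℝ ∞ F) : ContDiff ℝ ∞ (lf F) := by
  have h1 : ContDiff ℝ ∞ fun q => (starRingEnd ℂ) (F q) := Complex.conjCLE.contDiff.comp h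
  have h2 : ContDiff ℝ ∞ (fderiv ℝ F) := h.fderiv_right (m := ∞) (by simp)
  have h3 : ContDiff ℝ ∞ fun q => (starRingEnd ℂ) (F q) • fderiv ℝ F q := h1.smul h2
  exact contDiff_const.clm_comp h3

/-- smooth extension of the gradient -/
theorem exists_ext (hN : ClosedMfd n N ⊥) (h : CircleMap N F g) :
    ∃ (Pr : E m → (E m →L[ℝ] E m)) (V : E m → E m), ProjN N Pr ∧ ContDiff ℝ ∞ V ∧
      ∀ q ∈ N, V q = g q := by
  obtain ⟨Pr, hPr⟩ := exists_proj hN.sub hN.closed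
  refine ⟨Pr, fun q => Pr q (vec (lf F q)), hPr, ?_, fun q hq => ?_⟩
  · exact hPr.smooth.clm_apply (Circ_vec.comp (Circ_lf h.smooth))
  · refine tan_unique hN.sub hq (hPr.mem q hq _) (h.tan q hq) fun v hv => ?_
    rw [hPr.orth q hq _ v hv, ← lf_tan h hq hv]
    exact InnerProductSpace.toDual_symm_apply

/-- the covectors orthogonal to the orbits are multiples of the gradient -/
theorem mem_line (hN : ClosedMfd n N ⊥) (h : CircleMap N F g) (hL : ExactLag n N ⊥ S f)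
    {G : Set (E m →L[ℝ] E m)} (hG : RotG G) (hS : ∀ a ∈ G, ∀ z ∈ S, act a z ∈ S)
    (htr : ∀ q ∈ N, ∀ q' ∈ N, F q = F q' → ∃ a ∈ G, a q = q') {z : E m × E m} (hz : z ∈ S) :
    ∃ t : ℝ, z.2 = t • g z.1 := by
  obtain ⟨q, p⟩ := z
  obtain ⟨Pr, V, hPr, hV, hVg⟩ := exists_ext hN h
  have hT := hL.subTN hz
  have hq : q ∈ N := hT.1
  have hp : p ∈ Tan N q := hT.2
  have hgq : 0 < ‖g q‖ ^ 2 := by
    have := norm_pos_iff.2 (h.ne q hq)
    positivity
  obtain ⟨t, ht⟩ : ∃ t : ℝ, t = ⟪p, g q⟫ / ‖g q‖ ^ 2 := ⟨_, rfl⟩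
  obtain ⟨w, hw⟩ : ∃ w : E m, w = p - t • g q := ⟨_, rfl⟩
  have hwT : w ∈ Tan N q := by
    rw [hw]
    exact hN.sub.tan_sub hq hp (Tan.smul (h.tan q hq) t)
  have hgw : ⟪g q, w⟫ = 0 := by
    rw [hw, inner_sub_right, inner_smul_right, real_inner_self_eq_norm_sq, real_inner_comm, ht,
      div_mul_cancel₀ _ hgq.ne', sub_self]
  -- a vector field tangent to the fibres of `F`
  obtain ⟨W, hWd⟩ : ∃ W : E m → E m,
      W = fun y => ‖V y‖ ^ 2 • Pr y w - ⟪V y, Pr y w⟫ • V y := ⟨_, rfl⟩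
  have hPw : ContDiff ℝ ∞ fun y => Pr y w := hPr.smooth.clm_apply contDiff_const
  have hWs : ContDiff ℝ ∞ W := by
    rw [hWd]
    exact ((hV.norm_sq ℝ).smul hPw).sub ((hV.inner ℝ hPw).smul hV)
  have hWT : ∀ y ∈ N, W y ∈ Tan N y := by
    intro y hy
    rw [hWd]
    refine hN.sub.tan_sub hy (Tan.smul (hPr.mem y hy _) _) (Tan.smul ?_ _)
    rw [hVg y hy]
    exact h.tan y hy
  have hWg : ∀ y ∈ N, ⟪g y, W y⟫ = 0 := by
    intro y hy
    rw [hWd]
    simp only [hVg y hy, inner_sub_right, inner_smul_right, real_inner_self_eq_norm_sq]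
    ring
  have hWq : W q = ‖g q‖ ^ 2 • w := by
    have h1 : Pr q w = w := tan_unique hN.sub hq (hPr.mem q hq _) hwT fun v hv =>
      hPr.orth q hq _ v hv
    rw [hWd]
    simp only [hVg q hq, h1, hgw, zero_smul, sub_zero]
  obtain ⟨W', R, hB, hWW⟩ := exists_base hN.sub (closedMfd_compact hN) hN.conn hWs hWT
  have hFR : ∀ s, F (R s q) = F q := by
    have hd : ∀ s, HasDerivAt (fun s => F (R s q)) 0 s := by
      intro s
      have h1 := (h.smooth.differentiable (by simp) (R s q)).hasFDerivAt.comp_hasDerivAt s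
        (hB.flow.deriv q s)
      have h2 : R s q ∈ N := hB.maps q hq s
      have h3 : fderiv ℝ F (R s q) (W' (R s q)) = 0 := by
        rw [hWW _ h2, h.dF h2 (hWT _ h2), hWg _ h2, zero_smul]
      rw [h3] at h1
      exact h1
    intro s
    have h2 := is_const_of_deriv_eq_zero (fun t => (hd t).differentiableAt)
      (fun t => (hd t).deriv) s 0
    simp only [hB.flow.zero] at h2
    exact h2
  have hs0 : Tendsto (fun k : ℕ => 1 / ((k : ℝ) + 1)) atTop (𝓝 0) :=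
    tendsto_one_div_add_atTop_nhds_zero_nat
  have hsp : ∀ k : ℕ, 0 < 1 / ((k : ℝ) + 1) := fun k => by positivity
  choose a ha haq using fun k : ℕ => htr q hq (R (1 / ((k : ℝ) + 1)) q) (hB.maps q hq _)
    (hFR _).symm
  have hlim : Tendsto (fun k : ℕ => (1 / ((k : ℝ) + 1))⁻¹ • (a k q - q)) atTop
      (𝓝 (W' q)) := by
    have h1 := hB.flow.deriv q 0
    rw [hB.flow.zero] at h1
    have h2 := h1.tendsto_slope_zero_right
    have h3 : Tendsto (fun k : ℕ => 1 / ((k : ℝ) + 1)) atTop (𝓝[>] 0) :=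
      tendsto_nhdsWithin_iff.2 ⟨hs0, Eventually.of_forall fun k => hsp k⟩
    have h4 := h2.comp h3
    refine h4.congr fun k => ?_
    simp only [Function.comp_apply, zero_add, haq k, hB.flow.zero]
  obtain ⟨A, hA, hAq⟩ := orbit_tan hG ha hsp hs0 hlim
  have h5 : ⟪p, A q⟫ = 0 := mom_zero hN hL hG hS hA hz
  rw [hAq, hWW q hq, hWq, inner_smul_right] at h5
  have h6 : ⟪p, w⟫ = 0 := by
    rcases mul_eq_zero.1 h5 with h7 | h7
    · exact absurd h7 hgq.ne'
    · exact h7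
  have h7 : ⟪w, w⟫ = 0 := by
    have h8 : ⟪w, w⟫ = ⟪p, w⟫ - t * ⟪g q, w⟫ := by
      conv_lhs => rw [hw, inner_sub_left, inner_smul_left, ← hw]
      simp
    rw [h8, h6, hgw]
    ring
  refine ⟨t, ?_⟩
  have h9 : w = 0 := inner_self_eq_zero.1 h7
  rw [hw] at h9
  exact sub_eq_zero.1 h9

/-- Lagrangians contained in the lines spanned by `g` are embedded by `(q, p) ↦ (q, ⟨p, g⟩)`. -/
theorem emb_line (hN : ClosedMfd n N ⊥) {V : E m → E m} (hV : ContDiff ℝ ∞ V)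
    (hne : ∀ q ∈ N, V q ≠ 0) (hSN : ∀ z ∈ S, z.1 ∈ N)
    (hS : ∀ z ∈ S, ∃ t : ℝ, z.2 = t • V z.1) : EmbN V S := by
  refine ⟨?_, ?_⟩
  · intro z hz z' hz' h1 h2
    obtain ⟨t, ht⟩ := hS z hz
    obtain ⟨t', ht'⟩ := hS z' hz'
    have hpos : 0 < ‖V z.1‖ ^ 2 := by
      have := norm_pos_iff.2 (hne _ (hSN z hz))
      positivity
    rw [ht, ht', ← h1, inner_smul_left, inner_smul_left, real_inner_self_eq_norm_sq] at h2
    have h3 : t = t' := by
      simp only [conj_trivial] at h2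
      exact mul_right_cancel₀ hpos.ne' h2
    exact Prod.ext h1 (by rw [ht, ht', ← h1, h3])
  · intro z hz b hb hbV
    obtain ⟨γ, h0, hγ, hd⟩ := hb
    have hd1 : HasDerivAt (fun s => (γ s).1) 0 0 := hd.fst
    have hd2 : HasDerivAt (fun s => (γ s).2) b 0 := hd.snd
    have hVd : HasDerivAt (fun s => V (γ s).1) 0 0 := by
      have h1 := (hV.differentiable (by simp) (γ 0).1).hasFDerivAt.comp_hasDerivAt (0 : ℝ) hd1
      rw [map_zero] at h1
      exact h1
    have hA : HasDerivAt (fun s => ‖V (γ s).1‖ ^ 2 • (γ s).2 - ⟪(γ s).2, V (γ s).1⟫ • V (γ s).1)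
        (‖V z.1‖ ^ 2 • b) 0 := by
      have h1 := (hVd.norm_sq.smul hd2).sub ((hd2.inner ℝ hVd).smul hVd)
      have h2 : ‖V (γ 0).1‖ ^ 2 • b + (2 * ⟪V (γ 0).1, (0 : E m)⟫) • (γ 0).2 -
          (⟪(γ 0).2, V (γ 0).1⟫ • (0 : E m) +
            (⟪(γ 0).2, (0 : E m)⟫ + ⟪b, V (γ 0).1⟫) • V (γ 0).1) = ‖V z.1‖ ^ 2 • b := by
        rw [h0, hbV]
        simp
      rw [← h2]
      exact h1
    have hB : HasDerivAt (fun s => ‖V (γ s).1‖ ^ 2 • (γ s).2 - ⟪(γ s).2, V (γ s).1⟫ • V (γ s).1)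
        0 0 := by
      refine (hasDerivAt_const (0 : ℝ) (0 : E m)).congr_of_eventuallyEq ?_
      filter_upwards [hγ] with s hs
      obtain ⟨t, ht⟩ := hS _ hs
      rw [ht, inner_smul_left, real_inner_self_eq_norm_sq, smul_smul]
      simp only [conj_trivial]
      rw [mul_comm, sub_self]
    have h3 := hA.unique hB
    rcases smul_eq_zero.1 h3 with h4 | h4
    · have h5 := norm_pos_iff.2 (hne _ (hSN z hz))
      have : 0 < ‖V z.1‖ ^ 2 := by positivity
      exact absurd h4 this.ne'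
    · exact h4

/-- **The orbit space is a circle.** -/
theorem circle_iso (hN : ClosedMfd n N ⊥) (h : CircleMap N F g) (hL : ExactLag n N ⊥ S f)
    {G : Set (E m →L[ℝ] E m)} (hG : RotG G) (hS : ∀ a ∈ G, ∀ z ∈ S, act a z ∈ S)
    (htr : ∀ q ∈ N, ∀ q' ∈ N, F q = F q' → ∃ a ∈ G, a q = q') :
    ∃ (Ψ Ψ' : ℝ → E m × E m → E m × E m) (H : ℝ → E m × E m → ℝ),
      HamIso N Ψ Ψ' H ∧ Ψ 1 '' {z | z.1 ∈ N ∧ z.2 = 0} = S := by
  obtain ⟨Pr, V, hPr, hV, hVg⟩ := exists_ext hN h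
  have hSN : ∀ z ∈ S, z.1 ∈ N := fun z hz => (hL.subTN hz).1
  have hE : EmbN V S := by
    refine emb_line hN hV (fun q hq => ?_) hSN fun z hz => ?_
    · rw [hVg q hq]
      exact h.ne q hq
    · obtain ⟨t, ht⟩ := mem_line hN h hL hG hS htr hz
      exact ⟨t, by rw [ht, hVg _ (hSN z hz)]⟩
  obtain ⟨Ψ, Ψ', H, h1, h2, -⟩ := iso_main hN hV (fun q hq => by
    rw [hVg q hq]
    exact h.tan q hq) hL hE
  exact ⟨Ψ, Ψ', H, h1, h2⟩

end Pool.Agent.H86.CQ
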