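import Pool.Agent.H86.CQ.Circ
import Pool.Agent.H73.CO.DefsE

/-!
# Definitions for the equivariant theorem, the orbit space being an interval or a circle
-/

set_option autoImplicit false

open scoped ContDiff Topology RealInnerProductSpace
open Set Filter

namespace Pool.Agent.H86.CQ

open Pool.Agent.H57.NL Pool.Agent.H2.TG Pool.Agent.H2.TI Pool.Agent.H73.CO

variable {m : ℕ}

/-- `F` is, on `N`, a real transnormal function with gradient `g` (`Transnormal`), or a submersion
`exp (i θ)` to the unit circle, `grad θ = g`, with connected fibres. -/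
def OrbitMap (N : Set (E m)) (F : E m → ℂ) (g : E m → E m) : Prop :=
  (∃ F₀ : E m → ℝ, (∀ q ∈ N, F q = F₀ q) ∧ Transnormal N F₀ g) ∨
    CircleMap N F g ∧ ∀ a : ℂ, IsPreconnected {q | q ∈ N ∧ F q = a}

/-- `G` is a closed group of linear isometries of `ℝ^m` which acts on `N`, and its orbits in `N` are
the levels of `F`. Closed: for pointwise convergence. -/
structure OrbitsOf (G : Set (E m → E m)) (N : Set (E m)) (F : E m → ℂ) : Prop where
  orth : ∀ b ∈ G, Orth b
  one : id ∈ G
  mul : ∀ a ∈ G, ∀ b ∈ G, a ∘ b ∈ G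
  inv : ∀ a ∈ G, ∃ b ∈ G, b ∘ a = id
  closed : IsClosed G
  maps : ∀ b ∈ G, ∀ q ∈ N, b q ∈ N
  finv : ∀ b ∈ G, ∀ q ∈ N, F (b q) = F q
  trans : ∀ q ∈ N, ∀ q' ∈ N, F q = F q' → ∃ b ∈ G, b q = q'

end Pool.Agent.H86.CQ
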